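import Pool.Agent.W5h6.MC.Defs2
import Pool.Agent.W5h6.MC.AE

set_option autoImplicit false

open MeasureTheory Set Filter
open scoped Real FourierTransform ENNReal Topology
open Pool.Agent.W5h6.SW (ee bump F g norm_ee continuous_ee int_mul)

namespace Pool.Agent.W5h6.MC

/-- The high frequency mass. -/
noncomputable def Psi2 (k d N : ℕ) (η : ℝ) (θ : Fin d → ℝ) : ℝ≥0∞ :=
  ∫⁻ τ in (Icc (-τ2 k N) (τ2 k N))ᶜ,
    ENNReal.ofReal (‖g η τ‖ * (∏ i, ‖T k N τ (θ i)‖ + ‖K k N τ‖ ^ d))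

theorem measurable_Psi2 {k : ℕ} (hT : S_TRIVT k) (hG : S_GL1) (d N : ℕ) {η : ℝ} (h0 : 0 < η) :
    Measurable (Psi2 k d N η) := by
  obtain ⟨c, hc, hg⟩ := hG
  unfold Psi2
  refine Measurable.lintegral_prod_right' (f := fun p : (Fin d → ℝ) × ℝ =>
    ENNReal.ofReal (‖g η p.2‖ * (∏ i, ‖T k N p.2 (p.1 i)‖ + ‖K k N p.2‖ ^ d))) ?_
  have h1 : Continuous fun p : (Fin d → ℝ) × ℝ => ∏ i, ‖T k N p.2 (p.1 i)‖ := by
    have := (cont_prodT hT d N).norm
    simpa only [norm_prod] using this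
  have h2 : Continuous fun p : (Fin d → ℝ) × ℝ => g η p.2 := (hg η h0).1.comp continuous_snd
  have h3 : Continuous fun p : (Fin d → ℝ) × ℝ => K k N p.2 := (hT.2.2.2.1 N).comp continuous_snd
  exact (ENNReal.continuous_ofReal.comp (h2.norm.mul (h1.add (h3.norm.pow d)))).measurable

theorem pt2 {k d : ℕ} (hT : S_TRIVT k) (hR : S_REP k d) {c : ℝ} (hc : 0 < c)
    (hg : ∀ η : ℝ, 0 < η → Continuous (g η) ∧ Integrable (g η) ∧ (∀ τ, ‖g η τ‖ ≤ c * η) ∧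
      ∫ τ, ‖g η τ‖ ≤ c) (N : ℕ) {η : ℝ} (h0 : 0 < η) (t : ℝ) (θ : Fin d → ℝ) :
    ENNReal.ofReal |cnt k d N η t θ - mu k d N η t| ≤
      ENNReal.ofReal (c * η * ∫ τ in Icc (-τ2 k N) (τ2 k N),
        ‖∏ i, T k N τ (θ i) - K k N τ ^ d‖) + Psi2 k d N η θ := by
  obtain ⟨hgc, hgi, hgb, -⟩ := hg η h0
  have hcT := cont_prodT' hT d N θ
  have hcK : Continuous fun τ => K k N τ ^ d := (hT.2.2.2.1 N).pow d
  have hce : Continuous fun τ : ℝ => ee (-(τ * t)) := continuous_ee.comp (by fun_prop)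
  have i0 : Integrable fun τ => g η τ * ee (-(τ * t)) :=
    int_mul hgi hce 1 fun x => (norm_ee _).le
  have i1 : Integrable fun τ => g η τ * ee (-(τ * t)) * ∏ i, T k N τ (θ i) :=
    int_mul i0 hcT _ (norm_prodT hT d N θ)
  have i2 : Integrable fun τ => g η τ * ee (-(τ * t)) * K k N τ ^ d :=
    int_mul i0 hcK _ (norm_Kd hT d N)
  have e1 : ((cnt k d N η t θ - mu k d N η t : ℝ) : ℂ) =
      ∫ τ, g η τ * ee (-(τ * t)) * (∏ i, T k N τ (θ i) - K k N τ ^ d) := by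
    push_cast
    rw [hR.1 N η t θ h0, hR.2 N η t h0, ← integral_sub i1 i2]
    refine integral_congr_ae (Eventually.of_forall fun τ => ?_)
    show g η τ * ee (-(τ * t)) * ∏ i, T k N τ (θ i) - g η τ * ee (-(τ * t)) * K k N τ ^ d = _
    ring
  have hD : Continuous fun τ => ‖∏ i, T k N τ (θ i) - K k N τ ^ d‖ := (hcT.sub hcK).norm
  calc ENNReal.ofReal |cnt k d N η t θ - mu k d N η t|
      = ‖((cnt k d N η t θ - mu k d N η t : ℝ) : ℂ)‖ₑ := by
        rw [← ofReal_norm, Complex.norm_real, Real.norm_eq_abs]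
    _ ≤ ∫⁻ τ, ‖g η τ * ee (-(τ * t)) * (∏ i, T k N τ (θ i) - K k N τ ^ d)‖ₑ := by
        rw [e1]
        exact enorm_integral_le_lintegral_enorm _
    _ = (∫⁻ τ in Icc (-τ2 k N) (τ2 k N),
          ‖g η τ * ee (-(τ * t)) * (∏ i, T k N τ (θ i) - K k N τ ^ d)‖ₑ) +
        ∫⁻ τ in (Icc (-τ2 k N) (τ2 k N))ᶜ,
          ‖g η τ * ee (-(τ * t)) * (∏ i, T k N τ (θ i) - K k N τ ^ d)‖ₑ :=
        (lintegral_add_compl _ measurableSet_Icc).symm
    _ ≤ _ := by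
        refine add_le_add ?_ ?_
        · rw [← integral_const_mul, ofReal_integral_eq_lintegral_ofReal]
          · refine lintegral_mono fun τ => ?_
            rw [← ofReal_norm]
            refine ENNReal.ofReal_le_ofReal ?_
            rw [norm_mul, norm_mul, norm_ee, mul_one]
            exact mul_le_mul_of_nonneg_right (hgb τ) (norm_nonneg _)
          · exact ((continuous_const.mul hD).continuousOn).integrableOn_compact isCompact_Icc
          · exact Eventually.of_forall fun τ => by positivity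
        · refine lintegral_mono fun τ => ?_
          rw [← ofReal_norm]
          refine ENNReal.ofReal_le_ofReal ?_
          rw [norm_mul, norm_mul, norm_ee, mul_one]
          refine mul_le_mul_of_nonneg_left ?_ (norm_nonneg _)
          refine (norm_sub_le _ _).trans ?_
          rw [norm_prod, norm_pow]

theorem ae2 {k d : ℕ} (hk : 2 ≤ k) (hT : S_TRIVT k) (hL : S_LOW2 k d) (hG : S_GL1) (hH : S_HIGH2 k d)
    (hR : S_REP k d) : S_AE2 k d := by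
  intro δ hδ
  have hk0 : (0 : ℝ) < k := by exact_mod_cast (by omega : 0 < k)
  have hk2 : (2 : ℝ) ≤ k := by exact_mod_cast hk
  obtain ⟨CL, hCL, hlow⟩ := hL
  obtain ⟨c, hc, hg⟩ := id hG
  obtain ⟨CH, hCH, hhigh⟩ := hH
  set κ : ℝ := min (1 / (4 * (k : ℝ))) (((d : ℝ) / 2 - k - δ) / 2) with hκ
  have hκ0 : 0 < κ := lt_min (by positivity) (by linarith)
  have hκ1' : κ ≤ 1 / (4 * (k : ℝ)) := min_le_left _ _
  have hκ1 : κ ≤ 1 / 8 := hκ1'.trans (by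
    rw [div_le_div_iff₀ (by positivity) (by norm_num)]
    linarith)
  have hκ3 : κ < 1 / (2 * (k : ℝ)) := lt_of_le_of_lt hκ1' (by
    rw [div_lt_div_iff₀ (by positivity) (by positivity)]
    linarith)
  have hκ2 : κ ≤ ((d : ℝ) / 2 - k - δ) / 2 := min_le_right _ _
  refine ⟨κ, hκ0, ?_⟩
  -- the target
  set E : ℕ → ℝ := fun J => (4 ^ J : ℝ) ^ (-δ) * (4 ^ J : ℝ) ^ ((d : ℝ) - k - κ) with hE
  have hEpos : ∀ J, 0 < E J := fun J => by positivity
  set s : ℕ → Set (Fin d → ℝ) := fun J =>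
    {θ | ENNReal.ofReal (E J / 2) ≤ Psi2 k d (4 ^ J) ((4 ^ J : ℝ) ^ (-δ)) θ} with hs
  -- the measure of the exceptional sets
  have hmeas : ∀ J : ℕ, 1 ≤ J → (volume.restrict (Icc (0 : Fin d → ℝ) 1)) (s J) ≤
      ENNReal.ofReal (2 * CH * ((4 ^ J : ℝ) ^ ((k : ℝ) + δ + κ - d / 2) +
        (J : ℝ) ^ (2 * d) * (4 ^ J : ℝ) ^ (κ - 1 / (2 * (k : ℝ))))) := by
    intro J hJ
    have hη0 : (0 : ℝ) < (4 ^ J : ℝ) ^ (-δ) := by positivity
    have hm := measurable_Psi2 hT hG d (4 ^ J) hη0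
    have hmark : ENNReal.ofReal (E J / 2) * (volume.restrict (Icc (0 : Fin d → ℝ) 1)) (s J) ≤
        ENNReal.ofReal (CH * ((4 ^ J : ℝ) ^ ((d : ℝ) / 2) +
          (4 ^ J : ℝ) ^ (-δ) * (J : ℝ) ^ (2 * d) * (4 ^ J : ℝ) ^ ((d : ℝ) - k - 1 / (2 * (k : ℝ))))) :=
      (mul_meas_ge_le_lintegral hm _).trans (hhigh J _ hJ hη0)
    have hE2 : 0 < E J / 2 := half_pos (hEpos J)
    have h1 : (volume.restrict (Icc (0 : Fin d → ℝ) 1)) (s J) ≤
        ENNReal.ofReal (CH * ((4 ^ J : ℝ) ^ ((d : ℝ) / 2) +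
          (4 ^ J : ℝ) ^ (-δ) * (J : ℝ) ^ (2 * d) * (4 ^ J : ℝ) ^ ((d : ℝ) - k - 1 / (2 * (k : ℝ))))) /
          ENNReal.ofReal (E J / 2) := by
      rw [ENNReal.le_div_iff_mul_le (Or.inl (by simpa using hEpos J))
        (Or.inl ENNReal.ofReal_ne_top), mul_comm]
      exact hmark
    rw [← ENNReal.ofReal_div_of_pos hE2] at h1
    refine h1.trans (ENNReal.ofReal_le_ofReal (le_of_eq ?_))
    have h4 : (0 : ℝ) < 4 ^ J := by positivity
    have r1 : (4 ^ J : ℝ) ^ ((k : ℝ) + δ + κ - d / 2) =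
        (4 ^ J : ℝ) ^ ((d : ℝ) / 2) / E J := by
      rw [hE]
      simp only
      rw [← Real.rpow_add h4, ← Real.rpow_sub h4]
      congr 1
      ring
    have r2 : (4 ^ J : ℝ) ^ (κ - 1 / (2 * (k : ℝ))) =
        (4 ^ J : ℝ) ^ (-δ) * (4 ^ J : ℝ) ^ ((d : ℝ) - k - 1 / (2 * (k : ℝ))) / E J := by
      rw [hE]
      simp only
      rw [← Real.rpow_add h4, ← Real.rpow_add h4, ← Real.rpow_sub h4]
      congr 1
      ring
    rw [r1, r2]
    have := (hEpos J).ne'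
    field_simp
  -- they are summable
  have hsum : Summable fun J : ℕ => 2 * CH * ((4 ^ J : ℝ) ^ ((k : ℝ) + δ + κ - d / 2) +
      (J : ℝ) ^ (2 * d) * (4 ^ J : ℝ) ^ (κ - 1 / (2 * (k : ℝ)))) := by
    refine Summable.mul_left _ (Summable.add ?_ ?_)
    · have := summable_four (a := (k : ℝ) + δ + κ - d / 2) (by linarith) 0
      simpa using this
    · exact summable_four (by linarith) _
  have hBC : ∀ᵐ θ ∂(volume.restrict (Icc (0 : Fin d → ℝ) 1)), ∀ᶠ J in atTop, θ ∉ s (J + 1) := by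
    refine ae_eventually_notMem ?_
    have h1 : ∑' J, (volume.restrict (Icc (0 : Fin d → ℝ) 1)) (s (J + 1)) ≤
        ∑' J, ENNReal.ofReal (2 * CH * ((4 ^ (J + 1) : ℝ) ^ ((k : ℝ) + δ + κ - d / 2) +
        ((J + 1 : ℕ) : ℝ) ^ (2 * d) * (4 ^ (J + 1) : ℝ) ^ (κ - 1 / (2 * (k : ℝ))))) :=
      ENNReal.tsum_le_tsum fun J => hmeas (J + 1) (by omega)
    have h2 := (summable_nat_add_iff 1).2 hsum
    refine ne_top_of_le_ne_top ?_ h1
    rw [← ENNReal.ofReal_tsum_of_nonneg (fun J => by positivity) h2]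
    exact ENNReal.ofReal_ne_top
  -- the low part is small
  have hlim : ∀ᶠ J : ℕ in atTop, c * CL * ((J : ℝ) ^ (2 * k) * (4 ^ J : ℝ) ^ (κ - 1 / 4)) ≤
      1 / 2 := by
    have h1 := (summable_four (a := κ - 1 / 4) (by linarith) (2 * k)).tendsto_atTop_zero
    have h2 := h1.const_mul (c * CL)
    rw [mul_zero] at h2
    exact h2.eventually_le_const (by norm_num)
  have hcube : ∀ᵐ θ ∂(volume.restrict (Icc (0 : Fin d → ℝ) 1)), θ ∈ Icc (0 : Fin d → ℝ) 1 :=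
    ae_restrict_mem measurableSet_Icc
  filter_upwards [hBC, hcube] with θ hθ hθc
  obtain ⟨J₁, hJ₁⟩ := eventually_atTop.1 hθ
  obtain ⟨J₂, hJ₂⟩ := eventually_atTop.1 hlim
  refine ⟨max (J₁ + 1) J₂, fun J hJ t => ?_⟩
  have hJ1 : J₁ + 1 ≤ J := (le_max_left _ _).trans hJ
  have hJ2 : J₂ ≤ J := (le_max_right _ _).trans hJ
  have hnot : θ ∉ s J := by
    have := hJ₁ (J - 1) (by omega)
    rwa [Nat.sub_add_cancel (by omega)] at this
  have hΨ : Psi2 k d (4 ^ J) ((4 ^ J : ℝ) ^ (-δ)) θ ≤ ENNReal.ofReal (E J / 2) :=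
    (not_le.1 hnot).le
  have hη0 : (0 : ℝ) < (4 ^ J : ℝ) ^ (-δ) := by positivity
  have hpt := pt2 hT hR hc hg (4 ^ J) hη0 t θ
  have h4 : (0 : ℝ) < 4 ^ J := by positivity
  have hl := hlow J θ (by omega) fun i => ⟨hθc.1 i, hθc.2 i⟩
  have hlow2 : c * (4 ^ J : ℝ) ^ (-δ) * ∫ τ in Icc (-τ2 k (4 ^ J)) (τ2 k (4 ^ J)),
      ‖∏ i, T k (4 ^ J) τ (θ i) - K k (4 ^ J) τ ^ d‖ ≤ E J / 2 := by
    calc _ ≤ c * (4 ^ J : ℝ) ^ (-δ) *
          (CL * (J : ℝ) ^ (2 * k) * (4 ^ J : ℝ) ^ ((d : ℝ) - k - 1 / 4)) := by gcongr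
      _ = c * CL * ((J : ℝ) ^ (2 * k) * (4 ^ J : ℝ) ^ (κ - 1 / 4)) * E J := by
          have r : (4 ^ J : ℝ) ^ ((d : ℝ) - k - 1 / 4) =
              (4 ^ J : ℝ) ^ (κ - 1 / 4) * (4 ^ J : ℝ) ^ ((d : ℝ) - k - κ) := by
            rw [← Real.rpow_add h4]
            congr 1
            ring
          rw [hE]
          simp only
          rw [r]
          ring
      _ ≤ 1 / 2 * E J := mul_le_mul_of_nonneg_right (hJ₂ J hJ2) (hEpos J).le
      _ = _ := by ring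
  have hfin : ENNReal.ofReal |cnt k d (4 ^ J) ((4 ^ J : ℝ) ^ (-δ)) t θ -
      mu k d (4 ^ J) ((4 ^ J : ℝ) ^ (-δ)) t| ≤ ENNReal.ofReal (E J) := by
    refine hpt.trans ?_
    calc _ ≤ ENNReal.ofReal (E J / 2) + ENNReal.ofReal (E J / 2) :=
          add_le_add (ENNReal.ofReal_le_ofReal hlow2) hΨ
      _ = ENNReal.ofReal (E J) := by
          rw [← ENNReal.ofReal_add (half_pos (hEpos J)).le (half_pos (hEpos J)).le, add_halves]
  exact (ENNReal.ofReal_le_ofReal_iff (hEpos J).le).1 hfin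

end Pool.Agent.W5h6.MC
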