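import Pool.Agent.W5h6.MC.Defs

/-! Lattice points near `k`-spheres with almost all centres: from the unit cube to `ℝ^d`
(MP_927be3_nt). -/

set_option autoImplicit false

open MeasureTheory
open scoped Real

namespace Pool.Agent.W5h6.MC

/-- Moving the centre by an integral vector: a bijection between the two sets of points. -/
theorem all_shift {k d : ℕ} (θ : Fin d → ℝ) (n : Fin d → ℤ) (r w : ℝ) :
    {m : Fin d → ℤ | |∑ i, |(m i : ℝ) - θ i| ^ k - r ^ k| ≤ w} =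
      (fun m : Fin d → ℤ => m + n) ''
        {m : Fin d → ℤ | |∑ i, |(m i : ℝ) + ((n i : ℝ) - θ i)| ^ k - r ^ k| ≤ w} := by
  have key : ∀ m : Fin d → ℤ, ∑ i, |(((m + n) i : ℤ) : ℝ) - θ i| ^ k =
      ∑ i, |(m i : ℝ) + ((n i : ℝ) - θ i)| ^ k := by
    intro m
    refine Finset.sum_congr rfl fun i _ => ?_
    rw [Pi.add_apply, Int.cast_add, add_sub_assoc]
  ext m
  constructor
  · intro hm
    refine ⟨m - n, ?_, sub_add_cancel m n⟩
    have h1 := key (m - n)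
    rw [sub_add_cancel] at h1
    change |∑ i, |((m - n) i : ℝ) + ((n i : ℝ) - θ i)| ^ k - r ^ k| ≤ w
    rw [← h1]
    exact hm
  · rintro ⟨m', hm', rfl⟩
    change |∑ i, |(((m' + n) i : ℤ) : ℝ) - θ i| ^ k - r ^ k| ≤ w
    rw [key m']
    exact hm'

theorem all {k d : ℕ} (h : S_CUBE k d) : S_ALL k d := by
  intro δ hδ
  have h1 := h δ hδ
  rw [ae_restrict_iff' measurableSet_Icc] at h1
  have h2 : ∀ n : Fin d → ℤ, ∀ᵐ θ : Fin d → ℝ, (fun i => (n i : ℝ)) - θ ∈ Set.Icc (0 : Fin d → ℝ) 1 →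
      ∀ ε : ℝ, 0 < ε → ∃ r₀ : ℝ, ∀ r w : ℝ,
    r₀ ≤ r → r ^ (-δ) ≤ w → w ≤ 1 →
    {m : Fin d → ℤ | |∑ i, |(m i : ℝ) + ((n i : ℝ) - θ i)| ^ k - r ^ k| ≤ w}.Finite ∧
    |({m : Fin d → ℤ | |∑ i, |(m i : ℝ) + ((n i : ℝ) - θ i)| ^ k - r ^ k| ≤ w}.ncard : ℝ) -
      2 * (2 * Real.Gamma (1 / (k : ℝ) + 1)) ^ d / Real.Gamma ((d : ℝ) / k) *
        (w * r ^ ((d : ℝ) - k))| ≤ ε * (w * r ^ ((d : ℝ) - k)) := by
    intro n
    exact (Measure.measurePreserving_sub_left (volume : Measure (Fin d → ℝ))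
      (fun i => (n i : ℝ))).quasiMeasurePreserving.ae h1
  filter_upwards [ae_all_iff.2 h2] with θ hθ ε hε
  have hmem : (fun i => ((⌈θ i⌉ : ℤ) : ℝ)) - θ ∈ Set.Icc (0 : Fin d → ℝ) 1 := by
    refine ⟨fun i => ?_, fun i => ?_⟩
    · change (0 : ℝ) ≤ (⌈θ i⌉ : ℝ) - θ i
      have := Int.le_ceil (θ i)
      linarith
    · change (⌈θ i⌉ : ℝ) - θ i ≤ 1
      have := Int.ceil_lt_add_one (θ i)
      linarith
  obtain ⟨r₀, hr₀⟩ := hθ (fun i => ⌈θ i⌉) hmem ε hε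
  refine ⟨r₀, fun r w hr hw hw1 => ?_⟩
  obtain ⟨hf, hc⟩ := hr₀ r w hr hw hw1
  rw [all_shift θ (fun i => ⌈θ i⌉) r w]
  refine ⟨hf.image _, ?_⟩
  rw [Set.ncard_image_of_injective _ (add_left_injective _)]
  exact hc

end Pool.Agent.W5h6.MC
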