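import Pool.Agent.W5h6.MC.Defs2
import Pool.Agent.W5h6.MC.All

/-! From the unit cube to `ℝ^d`, second form (after All.lean by helper7). -/

set_option autoImplicit false

open MeasureTheory
open scoped Real

namespace Pool.Agent.W5h6.MC

theorem all2 {k d : ℕ} (h : S_CUBE2 k d) : S_ALL2 k d := by
  intro δ ρ hδ hρ
  have h1 := h δ ρ hδ hρ
  rw [ae_restrict_iff' measurableSet_Icc] at h1
  have h2 : ∀ n : Fin d → ℤ, ∀ᵐ θ : Fin d → ℝ, (fun i => (n i : ℝ)) - θ ∈ Set.Icc (0 : Fin d → ℝ) 1 →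
      ∀ ε : ℝ, 0 < ε → ∃ r₀ : ℝ, ∀ r w : ℝ,
    r₀ ≤ r → r ^ (-δ) ≤ w → w ≤ r ^ ((k : ℝ) - ρ) →
    {m : Fin d → ℤ | |∑ i, |(m i : ℝ) + ((n i : ℝ) - θ i)| ^ k - r ^ k| ≤ w}.Finite ∧
    |({m : Fin d → ℤ | |∑ i, |(m i : ℝ) + ((n i : ℝ) - θ i)| ^ k - r ^ k| ≤ w}.ncard : ℝ) -
      2 * (2 * Real.Gamma (1 / (k : ℝ) + 1)) ^ d / Real.Gamma ((d : ℝ) / k) *
        (w * r ^ ((d : ℝ) - k))| ≤ ε * (w * r ^ ((d : ℝ) - k)) := by
    intro n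
    exact (Measure.measurePreserving_sub_left (volume : Measure (Fin d → ℝ))
      (fun i => (n i : ℝ))).quasiMeasurePreserving.ae h1
  filter_upwards [ae_all_iff.2 h2] with θ hθ ε hε
  have hmem : (fun i => ((⌈θ i⌉ : ℤ) : ℝ)) - θ ∈ Set.Icc (0 : Fin d → ℝ) 1 := by
    refine ⟨fun i => ?_, fun i => ?_⟩
    · change (0 : ℝ) ≤ (⌈θ i⌉ : ℝ) - θ i
      have := Int.le_ceil (θ i)
      linarith
    · change (⌈θ i⌉ : ℝ) - θ i ≤ 1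
      have := Int.ceil_lt_add_one (θ i)
      linarith
  obtain ⟨r₀, hr₀⟩ := hθ (fun i => ⌈θ i⌉) hmem ε hε
  refine ⟨r₀, fun r w hr hw hw1 => ?_⟩
  obtain ⟨hf, hc⟩ := hr₀ r w hr hw hw1
  rw [all_shift θ (fun i => ⌈θ i⌉) r w]
  refine ⟨hf.image _, ?_⟩
  rw [Set.ncard_image_of_injective _ (add_left_injective _)]
  exact hc

end Pool.Agent.W5h6.MC
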