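import Pool.Agent.W5h6.MC.Defs

/-! (i) the asymptotic formula for shifts in the unit cube -/

set_option autoImplicit false

open MeasureTheory Filter Topology
open scoped Real
open Pool.Agent.W5h6.SW (ee bump F g)

namespace Pool.Agent.W5h6.MC

namespace Cube

theorem ratio (s c : ℝ) :
    Tendsto (fun t : ℝ => ((t + c) / t) ^ (s - 1)) atTop (𝓝 1) := by
  have h1 : Tendsto (fun t : ℝ => 1 + c / t) atTop (𝓝 (1 + 0)) :=
    tendsto_const_nhds.add (tendsto_const_nhds.div_atTop tendsto_id)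
  have h2 : Tendsto (fun t : ℝ => (1 + c / t) ^ (s - 1)) atTop (𝓝 ((1 + 0) ^ (s - 1))) :=
    h1.rpow_const (Or.inl (by norm_num))
  rw [add_zero, Real.one_rpow] at h2
  refine h2.congr' ?_
  filter_upwards [eventually_gt_atTop 0] with t ht
  congr 1
  field_simp

/-- the slope of `x ^ s` -/
theorem slope (s ε : ℝ) (hs : 1 < s) (hε : 0 < ε) : ∃ t₀ : ℝ, 3 ≤ t₀ ∧ ∀ t w : ℝ, t₀ ≤ t → 0 ≤ w →
    w ≤ 2 → |(t + w) ^ s - (t - w) ^ s - 2 * w * s * t ^ (s - 1)| ≤ ε * w * t ^ (s - 1) := by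
  have h1 := ratio s 2
  have h2 := ratio s (-2)
  have e1 : ∀ᶠ t : ℝ in atTop, |((t + 2) / t) ^ (s - 1) - 1| < ε / (2 * s) := by
    have := (Metric.tendsto_nhds.mp h1) (ε / (2 * s)) (by positivity)
    simpa [Real.dist_eq] using this
  have e2 : ∀ᶠ t : ℝ in atTop, |((t + -2) / t) ^ (s - 1) - 1| < ε / (2 * s) := by
    have := (Metric.tendsto_nhds.mp h2) (ε / (2 * s)) (by positivity)
    simpa [Real.dist_eq] using this
  obtain ⟨t₁, ht₁⟩ := eventually_atTop.mp (e1.and e2)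
  refine ⟨max t₁ 3, le_max_right _ _, fun t w ht hw0 hw2 => ?_⟩
  have ht3 : 3 ≤ t := (le_max_right _ _).trans ht
  obtain ⟨b1, b2⟩ := ht₁ t ((le_max_left _ _).trans ht)
  rcases hw0.eq_or_lt with h0 | hw
  · subst h0; simp
  have tp : 0 < t := by linarith
  have hT : 0 < t ^ (s - 1) := Real.rpow_pos_of_pos tp _
  obtain ⟨ξ, hξ, he⟩ := exists_deriv_eq_slope (fun x : ℝ => x ^ s) (a := t - w) (b := t + w)
    (by linarith) (by
      intro x hx
      exact (Real.continuousAt_rpow_const x s (Or.inr (by linarith))).continuousWithinAt) (by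
      intro x hx
      have : x ≠ 0 := by have := hx.1; intro h; linarith
      exact (Real.hasDerivAt_rpow_const (Or.inl this)).differentiableAt.differentiableWithinAt)
  have hξ1 : t - 2 ≤ ξ := by linarith [hξ.1]
  have hξ2 : ξ ≤ t + 2 := by linarith [hξ.2]
  have hξ0 : 0 < ξ := by linarith
  rw [Real.deriv_rpow_const] at he
  have hd : (t + w) ^ s - (t - w) ^ s = 2 * w * s * ξ ^ (s - 1) := by
    have : t + w - (t - w) = 2 * w := by ring
    rw [this] at he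
    field_simp at he
    linarith
  rw [hd]
  have u1 : ξ ^ (s - 1) ≤ t ^ (s - 1) * (1 + ε / (2 * s)) := by
    have a1 : ξ ^ (s - 1) ≤ (t + 2) ^ (s - 1) := Real.rpow_le_rpow hξ0.le hξ2 (by linarith)
    have a2 : (t + 2) ^ (s - 1) = t ^ (s - 1) * ((t + 2) / t) ^ (s - 1) := by
      rw [Real.div_rpow (by linarith) tp.le]; field_simp
    rw [a2] at a1
    have a3 := (abs_lt.mp b1).2
    nlinarith
  have u2 : t ^ (s - 1) * (1 - ε / (2 * s)) ≤ ξ ^ (s - 1) := by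
    have a1 : (t + -2) ^ (s - 1) ≤ ξ ^ (s - 1) :=
      Real.rpow_le_rpow (by linarith) (by linarith) (by linarith)
    have a2 : (t + -2) ^ (s - 1) = t ^ (s - 1) * ((t + -2) / t) ^ (s - 1) := by
      rw [Real.div_rpow (by linarith) tp.le]; field_simp
    rw [a2] at a1
    have a3 := (abs_lt.mp b2).1
    nlinarith
  have e3 : 2 * w * s * ξ ^ (s - 1) - 2 * w * s * t ^ (s - 1) =
      2 * w * s * (ξ ^ (s - 1) - t ^ (s - 1)) := by ring
  rw [e3, abs_mul, abs_of_pos (by positivity : 0 < 2 * w * s)]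
  have e4 : |ξ ^ (s - 1) - t ^ (s - 1)| ≤ t ^ (s - 1) * (ε / (2 * s)) := by
    rw [abs_le]; constructor <;> nlinarith
  calc 2 * w * s * |ξ ^ (s - 1) - t ^ (s - 1)| ≤ 2 * w * s * (t ^ (s - 1) * (ε / (2 * s))) := by
        gcongr
    _ = ε * w * t ^ (s - 1) := by field_simp

theorem small (a c : ℝ) (ha : 0 < a) (hc : 0 < c) : ∃ r₀ : ℝ, ∀ r : ℝ, r₀ ≤ r → r ^ (-a) ≤ c := by
  have h := tendsto_rpow_neg_atTop ha
  obtain ⟨r₀, h₀⟩ := eventually_atTop.mp ((Metric.tendsto_nhds.mp h) c hc)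
  refine ⟨r₀, fun r hr => ?_⟩
  have := h₀ r hr
  rw [Real.dist_eq, sub_zero] at this
  exact (le_abs_self _).trans this.le

theorem box {k d N : ℕ} (hk : 2 ≤ k) {r w : ℝ} (hr : 1 ≤ r) (hw : w ≤ 1) (hN : r + 2 ≤ N)
    {θ : Fin d → ℝ} (hθ : θ ∈ Set.Icc (0 : Fin d → ℝ) 1) :
    {m : Fin d → ℤ | |∑ i, |(m i : ℝ) + θ i| ^ k - r ^ k| ≤ w}.Finite ∧
    ({m : Fin d → ℤ | |∑ i, |(m i : ℝ) + θ i| ^ k - r ^ k| ≤ w}.ncard : ℝ) =
      Cn k d N (r ^ k) w θ := by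
  classical
  have hA : {m : Fin d → ℤ | |∑ i, |(m i : ℝ) + θ i| ^ k - r ^ k| ≤ w} =
      ((Fintype.piFinset (fun _ : Fin d => Finset.Ico (-(N : ℤ)) N)).filter
        fun m => |∑ i, |(m i : ℝ) + θ i| ^ k - r ^ k| ≤ w : Finset (Fin d → ℤ)) := by
    ext m
    simp only [Set.mem_ofPred_eq, Finset.coe_filter, Fintype.mem_piFinset, Finset.mem_Ico]
    refine ⟨fun h => ⟨fun i => ?_, h⟩, fun h => h.2⟩
    have h1 : |(m i : ℝ) + θ i| ^ k ≤ ∑ i, |(m i : ℝ) + θ i| ^ k :=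
      Finset.single_le_sum (f := fun i => |(m i : ℝ) + θ i| ^ k) (fun j _ => by positivity)
        (Finset.mem_univ i)
    have h2 := (abs_le.mp h).2
    have h3 : r ^ k + 1 ^ k ≤ (r + 1) ^ k := pow_add_pow_le (by linarith) (by norm_num) (by omega)
    rw [one_pow] at h3
    have h4 : |(m i : ℝ) + θ i| ^ k ≤ (r + 1) ^ k := by linarith
    have h5 : |(m i : ℝ) + θ i| ≤ r + 1 :=
      (pow_le_pow_iff_left₀ (abs_nonneg _) (by linarith) (by omega)).mp h4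
    have h6 := abs_le.mp h5
    have t0 : 0 ≤ θ i := hθ.1 i
    have t1 : θ i ≤ 1 := hθ.2 i
    constructor
    · have : (-(N : ℝ)) ≤ (m i : ℝ) := by linarith
      exact_mod_cast this
    · have : (m i : ℝ) < (N : ℝ) := by linarith
      exact_mod_cast this
  rw [hA]
  refine ⟨Finset.finite_toSet _, ?_⟩
  rw [Set.ncard_coe_finset]
  unfold Cn
  congr

/-- the final inequality -/
theorem fin_ineq {c0 C1 β γ ε w η R E Vp Vm Cn' : ℝ} (hc0 : 0 < c0) (hC1 : 0 < C1) (hε : 0 < ε)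
    (hw : 0 < w) (hR : 0 < R) (hη : 0 < η) (hηw : η ≤ β * w) (hβ : β ≤ 1 / 2)
    (hβ2 : β ≤ ε / (8 * c0)) (hγ : γ = ε / 16) (hE0 : 0 ≤ E) (hE : E ≤ γ * R)
    (hVp : |Vp - c0 * (w + 2 * η) * R| ≤ C1 * (ε / (8 * C1)) * (w + 2 * η) * R)
    (hVm : |Vm - c0 * (w - 2 * η) * R| ≤ C1 * (ε / (8 * C1)) * (w - 2 * η) * R)
    (h1 : Cn' ≤ Vp + 2 * (w + η) * E) (h2 : Vm - 2 * w * E ≤ Cn') :
    |Cn' - c0 * (w * R)| ≤ ε * (w * R) := by
  have hwR : 0 < w * R := by positivity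
  have hC : C1 * (ε / (8 * C1)) = ε / 8 := by field_simp
  rw [hC] at hVp hVm
  have hη2 : η ≤ w / 2 := by nlinarith
  have hb : c0 * η ≤ ε / 8 * w := by
    have : c0 * β ≤ ε / 8 := by
      have := mul_le_mul_of_nonneg_left hβ2 hc0.le
      have e : c0 * (ε / (8 * c0)) = ε / 8 := by field_simp
      linarith
    nlinarith
  have hbR : c0 * η * R ≤ ε / 8 * w * R := mul_le_mul_of_nonneg_right hb hR.le
  have hηR : η * R ≤ w / 2 * R := mul_le_mul_of_nonneg_right hη2 hR.le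
  have hwE : w * E ≤ ε / 16 * (w * R) := by
    rw [hγ] at hE; nlinarith
  have hηE : η * E ≤ w / 2 * E := mul_le_mul_of_nonneg_right hη2 hE0
  have v1 := (abs_le.mp hVp).2
  have v2 := (abs_le.mp hVm).1
  rw [abs_le]
  constructor <;> nlinarith

end Cube

open Pool.Agent.W5h6.MC.Cube in
/-- (i) -/
theorem cube {k d : ℕ} (hk : 2 ≤ k) (hd : 2 * k + 1 ≤ d) (hAE : S_AE k d) (hS : S_SMOOTH k d)
    (hV : S_VOL k d) : S_CUBE k d := by
  intro δ hδ
  have hkR : (2:ℝ) ≤ k := by exact_mod_cast hk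
  have hdR : 2 * (k:ℝ) + 1 ≤ d := by exact_mod_cast hd
  have hk0 : (0:ℝ) < k := by linarith
  have hd0 : (0:ℝ) < d := by linarith
  obtain ⟨δ', hδ'0, hδδ', hδ'1⟩ : ∃ δ' : ℝ, 0 ≤ δ' ∧ δ ≤ δ' ∧ 2 * δ' < d - 2 * k := by
    refine ⟨max δ 0, le_max_right _ _, le_max_left _ _, ?_⟩
    rcases le_total δ 0 with h | h
    · rw [max_eq_right h]; linarith
    · rw [max_eq_left h]; exact hδ
  obtain ⟨δ2, h21, h22⟩ : ∃ δ2 : ℝ, δ' < δ2 ∧ 2 * δ2 < d - 2 * k :=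
    ⟨δ' / 2 + ((d:ℝ) - 2 * k) / 4, by linarith, by linarith⟩
  obtain ⟨κ0, hκ0, hae⟩ := hAE δ2 (by linarith) h22
  obtain ⟨κ, hκ, hκκ, hκ1⟩ : ∃ κ : ℝ, 0 < κ ∧ κ ≤ κ0 ∧ κ ≤ 1 :=
    ⟨min κ0 1, lt_min hκ0 one_pos, min_le_left _ _, min_le_right _ _⟩
  filter_upwards [hae, ae_restrict_mem measurableSet_Icc] with θ hθ hθI ε hε
  obtain ⟨J₀, hJ₀⟩ := hθ
  set s : ℝ := (d:ℝ) / k with hs
  set D : ℝ := (d:ℝ) - k with hD
  have hs1 : 1 < s := by rw [hs, lt_div_iff₀ hk0]; linarith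
  have hs0 : 0 < s := by linarith
  set C1 : ℝ := (2 * Real.Gamma (1 / (k : ℝ) + 1)) ^ d / Real.Gamma (s + 1) with hC1
  set c0 : ℝ := 2 * (2 * Real.Gamma (1 / (k : ℝ) + 1)) ^ d / Real.Gamma s with hc0
  have hG1 : 0 < Real.Gamma (1 / (k : ℝ) + 1) := Real.Gamma_pos_of_pos (by positivity)
  have hG2 : 0 < Real.Gamma s := Real.Gamma_pos_of_pos hs0
  have hG3 : Real.Gamma (s + 1) = s * Real.Gamma s := Real.Gamma_add_one hs0.ne'
  have hC1p : 0 < C1 := by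
    rw [hC1, hG3]; positivity
  have hc0p : 0 < c0 := by rw [hc0]; positivity
  have hc01 : c0 = C1 * (2 * s) := by
    rw [hc0, hC1, hG3]; field_simp
  obtain ⟨t₀, ht₀3, hslope⟩ := slope s (ε / (8 * C1)) hs1 (by positivity)
  obtain ⟨β, hβ0, hβ1, hβ2⟩ : ∃ β : ℝ, 0 < β ∧ β ≤ 1 / 2 ∧ β ≤ ε / (8 * c0) :=
    ⟨min (1 / 2) (ε / (8 * c0)), lt_min (by norm_num) (by positivity), min_le_left _ _,
      min_le_right _ _⟩
  obtain ⟨r1, hr1⟩ := small (δ2 - δ') β (by linarith) hβ0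
  obtain ⟨r2, hr2⟩ := small κ (ε / 16 / (12:ℝ) ^ (D - κ)) hκ (by positivity)
  refine ⟨max (max r1 r2) (max t₀ (4 ^ J₀)), fun r w hr hrw hw1 => ?_⟩
  have g1 : r1 ≤ r := (le_max_left _ _).trans ((le_max_left _ _).trans hr)
  have g2 : r2 ≤ r := (le_max_right _ _).trans ((le_max_left _ _).trans hr)
  have g3 : t₀ ≤ r := (le_max_left _ _).trans ((le_max_right _ _).trans hr)
  have g4 : (4:ℝ) ^ J₀ ≤ r := (le_max_right _ _).trans ((le_max_right _ _).trans hr)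
  have hr3 : 3 ≤ r := ht₀3.trans g3
  have hr1' : 1 ≤ r := by linarith
  have hr0 : 0 < r := by linarith
  obtain ⟨n, hn1, hn2⟩ := exists_nat_pow_near (x := r + 2) (y := (4:ℝ)) (by linarith) (by norm_num)
  set J := n + 1 with hJ
  have hJ1 : r + 2 ≤ (4:ℝ) ^ J := hn2.le
  have hJ2 : (4:ℝ) ^ J ≤ 12 * r := by
    rw [hJ, pow_succ]; linarith
  have hJJ : J₀ ≤ J := by
    by_contra hlt
    push Not at hlt
    have := pow_le_pow_right₀ (by norm_num : (1:ℝ) ≤ 4) hlt.le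
    linarith
  have hNc : (((4 ^ J : ℕ) : ℕ) : ℝ) = (4:ℝ) ^ J := by push_cast; rfl
  obtain ⟨hfin, hcard⟩ := box (k := k) (d := d) (N := 4 ^ J) hk (w := w) hr1' hw1
    (by rw [hNc]; exact hJ1) hθI
  refine ⟨hfin, ?_⟩
  rw [hcard]
  have hw0 : 0 < w := (Real.rpow_pos_of_pos hr0 _).trans_le hrw
  set N : ℝ := (4:ℝ) ^ J with hN
  have hNp : 0 < N := by positivity
  have hN1 : 1 ≤ N := by linarith
  set η : ℝ := N ^ (-δ2) with hη
  have hηp : 0 < η := Real.rpow_pos_of_pos hNp _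
  have hηw : η ≤ β * w := by
    have a1 : η ≤ r ^ (-δ2) := Real.rpow_le_rpow_of_nonpos hr0 (by linarith) (by linarith)
    have a2 : r ^ (-δ2) = r ^ (-(δ2 - δ')) * r ^ (-δ') := by
      rw [← Real.rpow_add hr0]; congr 1; ring
    have a3 : r ^ (-δ') ≤ w := by
      refine le_trans ?_ hrw
      exact Real.rpow_le_rpow_of_exponent_le hr1' (by linarith)
    have a4 := hr1 r g1
    have a5 : (0:ℝ) ≤ r ^ (-δ') := (Real.rpow_pos_of_pos hr0 _).le
    calc η ≤ r ^ (-(δ2 - δ')) * r ^ (-δ') := a1.trans a2.le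
      _ ≤ β * w := mul_le_mul a4 a3 a5 hβ0.le
  have h2η : 2 * η ≤ w := by nlinarith
  set E : ℝ := N ^ (D - κ0) with hE
  have hEp : 0 ≤ E := (Real.rpow_pos_of_pos hNp _).le
  set R : ℝ := r ^ D with hR
  have hRp : 0 < R := Real.rpow_pos_of_pos hr0 _
  have hER : E ≤ ε / 16 * R := by
    have a1 : E ≤ N ^ (D - κ) := Real.rpow_le_rpow_of_exponent_le hN1 (by linarith)
    have a2 : N ^ (D - κ) ≤ (12 * r) ^ (D - κ) :=
      Real.rpow_le_rpow hNp.le hJ2 (by rw [hD]; linarith)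
    have a3 : (12 * r) ^ (D - κ) = (12:ℝ) ^ (D - κ) * (r ^ (-κ) * R) := by
      rw [Real.mul_rpow (by norm_num) hr0.le, hR, ← Real.rpow_add hr0]
      congr 2; ring
    have a4 := hr2 r g2
    have a5 : (0:ℝ) < (12:ℝ) ^ (D - κ) := by positivity
    rw [le_div_iff₀ a5] at a4
    calc E ≤ (12:ℝ) ^ (D - κ) * (r ^ (-κ) * R) := a1.trans (a2.trans a3.le)
      _ = (r ^ (-κ) * (12:ℝ) ^ (D - κ)) * R := by ring
      _ ≤ ε / 16 * R := mul_le_mul_of_nonneg_right a4 hRp.le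
  -- the bound for the smooth count
  have hsm := hS (4 ^ J) η (r ^ k) w (η * E) θ hηp h2η (by positivity) (fun t' => by
    have := hJ₀ J hJJ t'
    exact this)
  -- volumes
  have htr : r ≤ r ^ k := le_self_pow₀ hr1' (by omega)
  have htR : (r ^ k) ^ (s - 1) = R := by
    rw [hR, ← Real.rpow_natCast r k, ← Real.rpow_mul hr0.le]
    congr 1
    rw [hs, hD]; field_simp
  have hvol : ∀ w' : ℝ, 0 ≤ w' → w' ≤ 2 →
      |Vl k d (4 ^ J) (r ^ k) w' - c0 * w' * R| ≤ C1 * (ε / (8 * C1)) * w' * R := by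
    intro w' h0 h2
    have b1 : w' ≤ r ^ k := by linarith
    have b2 : r ^ k + w' ≤ (((4 ^ J : ℕ) : ℕ) : ℝ) ^ k := by
      rw [hNc]
      have c1 : r ^ k + 2 ^ k ≤ (r + 2) ^ k := pow_add_pow_le hr0.le (by norm_num) (by omega)
      have c2 : (2:ℝ) ≤ 2 ^ k := le_self_pow₀ (by norm_num) (by omega)
      have c3 : (r + 2) ^ k ≤ N ^ k := pow_le_pow_left₀ (by linarith) hJ1 k
      linarith
    rw [hV (4 ^ J) (r ^ k) w' h0 b1 b2]
    have b3 := hslope (r ^ k) w' (g3.trans htr) h0 h2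
    rw [htR] at b3
    have b4 : C1 * ((r ^ k + w') ^ s - (r ^ k - w') ^ s) - c0 * w' * R =
        C1 * ((r ^ k + w') ^ s - (r ^ k - w') ^ s - 2 * w' * s * R) := by
      rw [hc01]; ring
    change |C1 * ((r ^ k + w') ^ s - (r ^ k - w') ^ s) - c0 * w' * R| ≤ _
    rw [b4, abs_mul, abs_of_pos hC1p]
    calc C1 * |(r ^ k + w') ^ s - (r ^ k - w') ^ s - 2 * w' * s * R|
        ≤ C1 * (ε / (8 * C1) * w' * R) := mul_le_mul_of_nonneg_left b3 hC1p.le
      _ = C1 * (ε / (8 * C1)) * w' * R := by ring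
  have e1 : 2 * (w + η) / η * (η * E) = 2 * (w + η) * E := by field_simp
  have e2 : 2 * w / η * (η * E) = 2 * w * E := by field_simp
  rw [e1, e2] at hsm
  exact fin_ineq hc0p hC1p hε hw0 hRp hηp hηw hβ1 hβ2 rfl hEp hER
    (hvol _ (by linarith) (by linarith)) (hvol _ (by linarith) (by linarith)) hsm.1 hsm.2

end Pool.Agent.W5h6.MC
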