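import Pool.Agent.W5h6.MC.Defs2
import Pool.Agent.W5h6.MC.Cube

/-! (i2) the asymptotic formula for shifts in the unit cube, all `d ≥ k+1` and all windows -/

set_option autoImplicit false

open MeasureTheory Filter Topology
open scoped Real
open Pool.Agent.W5h6.SW (ee bump F g)

namespace Pool.Agent.W5h6.MC

namespace Cube

/-- the slope of `x ^ s`, windows up to `β t` -/
theorem slope2 (s ε : ℝ) (hs : 1 < s) (hε : 0 < ε) : ∃ β : ℝ, 0 < β ∧ β ≤ 1 / 2 ∧ ∀ t w : ℝ,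
    0 < t → 0 ≤ w → w ≤ β * t →
    |(t + w) ^ s - (t - w) ^ s - 2 * w * s * t ^ (s - 1)| ≤ ε * w * t ^ (s - 1) := by
  have hc : ContinuousAt (fun x : ℝ => x ^ (s - 1)) 1 :=
    Real.continuousAt_rpow_const 1 (s - 1) (Or.inl one_ne_zero)
  obtain ⟨β', hβ', hb⟩ := Metric.continuousAt_iff.mp hc (ε / (2 * s)) (by positivity)
  refine ⟨min (β' / 2) (1 / 2), lt_min (by positivity) (by norm_num), min_le_right _ _,
    fun t w tp hw0 hwt => ?_⟩
  set β : ℝ := min (β' / 2) (1 / 2) with hβ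
  have hβ1 : β ≤ β' / 2 := min_le_left _ _
  have hβ2 : β ≤ 1 / 2 := min_le_right _ _
  rcases hw0.eq_or_lt with h0 | hw
  · subst h0; simp
  have hwt2 : w ≤ t / 2 := by nlinarith
  have hT : 0 < t ^ (s - 1) := Real.rpow_pos_of_pos tp _
  obtain ⟨ξ, hξ, he⟩ := exists_deriv_eq_slope (fun x : ℝ => x ^ s) (a := t - w) (b := t + w)
    (by linarith) (by
      intro x hx
      exact (Real.continuousAt_rpow_const x s (Or.inr (by linarith))).continuousWithinAt) (by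
      intro x hx
      have : x ≠ 0 := by have := hx.1; intro h; linarith
      exact (Real.hasDerivAt_rpow_const (Or.inl this)).differentiableAt.differentiableWithinAt)
  have hξ0 : 0 < ξ := by linarith [hξ.1]
  rw [Real.deriv_rpow_const] at he
  have hd : (t + w) ^ s - (t - w) ^ s = 2 * w * s * ξ ^ (s - 1) := by
    have : t + w - (t - w) = 2 * w := by ring
    rw [this] at he
    field_simp at he
    linarith
  rw [hd]
  have hq : |ξ / t - 1| < β' := by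
    have q1 : ξ / t - 1 = (ξ - t) / t := by field_simp
    rw [q1, abs_div, abs_of_pos tp, div_lt_iff₀ tp]
    have q2 : |ξ - t| ≤ w := by
      rw [abs_le]; constructor <;> linarith [hξ.1, hξ.2]
    nlinarith
  have hq2 := hb (x := ξ / t) (by rw [Real.dist_eq]; exact hq)
  rw [Real.dist_eq] at hq2
  simp only [Real.one_rpow] at hq2
  have hq3 : ξ ^ (s - 1) = t ^ (s - 1) * (ξ / t) ^ (s - 1) := by
    rw [Real.div_rpow hξ0.le tp.le]; field_simp
  have e3 : 2 * w * s * ξ ^ (s - 1) - 2 * w * s * t ^ (s - 1) =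
      2 * w * s * (t ^ (s - 1) * ((ξ / t) ^ (s - 1) - 1)) := by rw [hq3]; ring
  rw [e3, abs_mul, abs_of_pos (by positivity : 0 < 2 * w * s), abs_mul, abs_of_pos hT]
  calc 2 * w * s * (t ^ (s - 1) * |(ξ / t) ^ (s - 1) - 1|)
      ≤ 2 * w * s * (t ^ (s - 1) * (ε / (2 * s))) := by gcongr
    _ = ε * w * t ^ (s - 1) := by field_simp

theorem two_pow {k : ℕ} (hk : 2 ≤ k) {r : ℝ} (hr : 0 ≤ r) : 2 * r ^ k ≤ (2 * r) ^ k := by
  rw [mul_pow]
  have c2 : (2:ℝ) ≤ 2 ^ k := le_self_pow₀ (by norm_num) (by omega)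
  exact mul_le_mul_of_nonneg_right c2 (by positivity)

theorem box2 {k d N : ℕ} (hk : 2 ≤ k) {r w : ℝ} (hr : 1 ≤ r) (hw : w ≤ r ^ k)
    (hN : 2 * r + 4 ≤ N) {θ : Fin d → ℝ} (hθ : θ ∈ Set.Icc (0 : Fin d → ℝ) 1) :
    {m : Fin d → ℤ | |∑ i, |(m i : ℝ) + θ i| ^ k - r ^ k| ≤ w}.Finite ∧
    ({m : Fin d → ℤ | |∑ i, |(m i : ℝ) + θ i| ^ k - r ^ k| ≤ w}.ncard : ℝ) =
      Cn k d N (r ^ k) w θ := by
  classical
  have hA : {m : Fin d → ℤ | |∑ i, |(m i : ℝ) + θ i| ^ k - r ^ k| ≤ w} =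
      ((Fintype.piFinset (fun _ : Fin d => Finset.Ico (-(N : ℤ)) N)).filter
        fun m => |∑ i, |(m i : ℝ) + θ i| ^ k - r ^ k| ≤ w : Finset (Fin d → ℤ)) := by
    ext m
    simp only [Set.mem_ofPred_eq, Finset.coe_filter, Fintype.mem_piFinset, Finset.mem_Ico]
    refine ⟨fun h => ⟨fun i => ?_, h⟩, fun h => h.2⟩
    have h1 : |(m i : ℝ) + θ i| ^ k ≤ ∑ i, |(m i : ℝ) + θ i| ^ k :=
      Finset.single_le_sum (f := fun i => |(m i : ℝ) + θ i| ^ k) (fun j _ => by positivity)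
        (Finset.mem_univ i)
    have h2 := (abs_le.mp h).2
    have h3 : 2 * r ^ k ≤ (2 * r) ^ k := two_pow hk (by linarith)
    have h4 : |(m i : ℝ) + θ i| ^ k ≤ (2 * r) ^ k := by linarith
    have h5 : |(m i : ℝ) + θ i| ≤ 2 * r :=
      (pow_le_pow_iff_left₀ (abs_nonneg _) (by linarith) (by omega)).mp h4
    have h6 := abs_le.mp h5
    have t0 : 0 ≤ θ i := hθ.1 i
    have t1 : θ i ≤ 1 := hθ.2 i
    constructor
    · have : (-(N : ℝ)) ≤ (m i : ℝ) := by linarith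
      exact_mod_cast this
    · have : (m i : ℝ) < (N : ℝ) := by linarith
      exact_mod_cast this
  rw [hA]
  refine ⟨Finset.finite_toSet _, ?_⟩
  rw [Set.ncard_coe_finset]
  unfold Cn
  congr

end Cube

open Pool.Agent.W5h6.MC.Cube in
/-- (i2) -/
theorem cube2 {k d : ℕ} (hk : 2 ≤ k) (hd : k + 1 ≤ d) (hAE : S_AE2 k d) (hS : S_SMOOTH k d)
    (hV : S_VOL k d) : S_CUBE2 k d := by
  intro δ ρ hδ hρ
  have hkR : (2:ℝ) ≤ k := by exact_mod_cast hk
  have hdR : (k:ℝ) + 1 ≤ d := by exact_mod_cast hd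
  have hk0 : (0:ℝ) < k := by linarith
  have hd0 : (0:ℝ) < d := by linarith
  obtain ⟨δ2, h21, h22⟩ : ∃ δ2 : ℝ, δ < δ2 ∧ 2 * δ2 < d - 2 * k :=
    ⟨δ / 2 + ((d:ℝ) - 2 * k) / 4, by linarith, by linarith⟩
  obtain ⟨κ0, hκ0, hae⟩ := hAE δ2 h22
  obtain ⟨κ, hκ, hκκ, hκ1⟩ : ∃ κ : ℝ, 0 < κ ∧ κ ≤ κ0 ∧ κ ≤ 1 :=
    ⟨min κ0 1, lt_min hκ0 one_pos, min_le_left _ _, min_le_right _ _⟩
  filter_upwards [hae, ae_restrict_mem measurableSet_Icc] with θ hθ hθI ε hε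
  obtain ⟨J₀, hJ₀⟩ := hθ
  set s : ℝ := (d:ℝ) / k with hs
  set D : ℝ := (d:ℝ) - k with hD
  have hs1 : 1 < s := by rw [hs, lt_div_iff₀ hk0]; linarith
  have hs0 : 0 < s := by linarith
  set C1 : ℝ := (2 * Real.Gamma (1 / (k : ℝ) + 1)) ^ d / Real.Gamma (s + 1) with hC1
  set c0 : ℝ := 2 * (2 * Real.Gamma (1 / (k : ℝ) + 1)) ^ d / Real.Gamma s with hc0
  have hG1 : 0 < Real.Gamma (1 / (k : ℝ) + 1) := Real.Gamma_pos_of_pos (by positivity)
  have hG2 : 0 < Real.Gamma s := Real.Gamma_pos_of_pos hs0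
  have hG3 : Real.Gamma (s + 1) = s * Real.Gamma s := Real.Gamma_add_one hs0.ne'
  have hC1p : 0 < C1 := by
    rw [hC1, hG3]; positivity
  have hc0p : 0 < c0 := by rw [hc0]; positivity
  have hc01 : c0 = C1 * (2 * s) := by
    rw [hc0, hC1, hG3]; field_simp
  obtain ⟨β0, hβ00, hβ01, hslope⟩ := slope2 s (ε / (8 * C1)) hs1 (by positivity)
  obtain ⟨β, hβ0, hβ1, hβ2⟩ : ∃ β : ℝ, 0 < β ∧ β ≤ 1 / 2 ∧ β ≤ ε / (8 * c0) :=
    ⟨min (1 / 2) (ε / (8 * c0)), lt_min (by norm_num) (by positivity), min_le_left _ _,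
      min_le_right _ _⟩
  set Cδ : ℝ := max 1 ((24:ℝ) ^ (-δ2)) with hCδ
  have hCδp : 0 < Cδ := lt_max_of_lt_left one_pos
  obtain ⟨r1, hr1⟩ := small (δ2 - δ) (β / Cδ) (by linarith) (by positivity)
  obtain ⟨r2, hr2⟩ := small κ (ε / 16 / (24:ℝ) ^ (D - κ)) hκ (by positivity)
  obtain ⟨r3, hr3⟩ := small ρ (β0 / 2) hρ (by positivity)
  refine ⟨max (max r1 r2) (max (max r3 1) (4 ^ J₀)), fun r w hr hrw hwr => ?_⟩
  have g1 : r1 ≤ r := (le_max_left _ _).trans ((le_max_left _ _).trans hr)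
  have g2 : r2 ≤ r := (le_max_right _ _).trans ((le_max_left _ _).trans hr)
  have g3' : max r3 1 ≤ r := (le_max_left _ _).trans ((le_max_right _ _).trans hr)
  have g3 : r3 ≤ r := (le_max_left _ _).trans g3'
  have hr1' : 1 ≤ r := (le_max_right _ _).trans g3'
  have g4 : (4:ℝ) ^ J₀ ≤ r := (le_max_right _ _).trans ((le_max_right _ _).trans hr)
  have hr0 : 0 < r := by linarith
  obtain ⟨n, hn1, hn2⟩ := exists_nat_pow_near (x := 2 * r + 4) (y := (4:ℝ)) (by linarith)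
    (by norm_num)
  set J := n + 1 with hJ
  have hJ1 : 2 * r + 4 ≤ (4:ℝ) ^ J := hn2.le
  have hJ2 : (4:ℝ) ^ J ≤ 24 * r := by
    rw [hJ, pow_succ]; linarith
  have hJJ : J₀ ≤ J := by
    by_contra hlt
    push Not at hlt
    have := pow_le_pow_right₀ (by norm_num : (1:ℝ) ≤ 4) hlt.le
    linarith
  have hNc : (((4 ^ J : ℕ) : ℕ) : ℝ) = (4:ℝ) ^ J := by push_cast; rfl
  -- the windows
  have hkp : r ^ ((k:ℝ) - ρ) = r ^ (-ρ) * r ^ k := by
    rw [← Real.rpow_natCast r k, ← Real.rpow_add hr0]; congr 1; ring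
  have hrkp : 0 < r ^ k := by positivity
  have hw2 : 2 * w ≤ β0 * r ^ k := by
    have a1 := hr3 r g3
    rw [hkp] at hwr
    have a2 : r ^ (-ρ) * r ^ k ≤ β0 / 2 * r ^ k := mul_le_mul_of_nonneg_right a1 hrkp.le
    linarith
  have hβk : β0 * r ^ k ≤ 1 / 2 * r ^ k := mul_le_mul_of_nonneg_right hβ01 hrkp.le
  have hwk : w ≤ r ^ k := by linarith
  obtain ⟨hfin, hcard⟩ := box2 (k := k) (d := d) (N := 4 ^ J) hk (w := w) hr1' hwk
    (by rw [hNc]; exact hJ1) hθI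
  refine ⟨hfin, ?_⟩
  rw [hcard]
  have hw0 : 0 < w := (Real.rpow_pos_of_pos hr0 _).trans_le hrw
  set N : ℝ := (4:ℝ) ^ J with hN
  have hNp : 0 < N := by positivity
  have hN1 : 1 ≤ N := by linarith
  set η : ℝ := N ^ (-δ2) with hη
  have hηp : 0 < η := Real.rpow_pos_of_pos hNp _
  have hηw : η ≤ β * w := by
    have p0 : 0 < r ^ (-δ2) := Real.rpow_pos_of_pos hr0 _
    have a1 : η ≤ Cδ * r ^ (-δ2) := by
      rcases le_total 0 δ2 with h | h
      · have b1 : η ≤ r ^ (-δ2) :=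
          Real.rpow_le_rpow_of_nonpos hr0 (by linarith) (by linarith)
        have b2 : (1:ℝ) ≤ Cδ := le_max_left _ _
        exact b1.trans (le_mul_of_one_le_left p0.le b2)
      · have b1 : η ≤ (24 * r) ^ (-δ2) := Real.rpow_le_rpow hNp.le hJ2 (by linarith)
        rw [Real.mul_rpow (by norm_num) hr0.le] at b1
        have b2 : (24:ℝ) ^ (-δ2) ≤ Cδ := le_max_right _ _
        exact b1.trans (mul_le_mul_of_nonneg_right b2 p0.le)
    have a2 : r ^ (-δ2) = r ^ (-(δ2 - δ)) * r ^ (-δ) := by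
      rw [← Real.rpow_add hr0]; congr 1; ring
    have a4 := hr1 r g1
    rw [le_div_iff₀ hCδp] at a4
    have a5 : (0:ℝ) ≤ r ^ (-δ) := (Real.rpow_pos_of_pos hr0 _).le
    calc η ≤ Cδ * (r ^ (-(δ2 - δ)) * r ^ (-δ)) := by rw [← a2]; exact a1
      _ = (r ^ (-(δ2 - δ)) * Cδ) * r ^ (-δ) := by ring
      _ ≤ β * w := mul_le_mul a4 hrw a5 hβ0.le
  have h2η : 2 * η ≤ w := by
    have := mul_le_mul_of_nonneg_right hβ1 hw0.le
    linarith
  set E : ℝ := N ^ (D - κ0) with hE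
  have hEp : 0 ≤ E := (Real.rpow_pos_of_pos hNp _).le
  set R : ℝ := r ^ D with hR
  have hRp : 0 < R := Real.rpow_pos_of_pos hr0 _
  have hER : E ≤ ε / 16 * R := by
    have a1 : E ≤ N ^ (D - κ) := Real.rpow_le_rpow_of_exponent_le hN1 (by linarith)
    have a2 : N ^ (D - κ) ≤ (24 * r) ^ (D - κ) :=
      Real.rpow_le_rpow hNp.le hJ2 (by rw [hD]; linarith)
    have a3 : (24 * r) ^ (D - κ) = (24:ℝ) ^ (D - κ) * (r ^ (-κ) * R) := by
      rw [Real.mul_rpow (by norm_num) hr0.le, hR, ← Real.rpow_add hr0]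
      congr 2; ring
    have a4 := hr2 r g2
    have a5 : (0:ℝ) < (24:ℝ) ^ (D - κ) := by positivity
    rw [le_div_iff₀ a5] at a4
    calc E ≤ (24:ℝ) ^ (D - κ) * (r ^ (-κ) * R) := a1.trans (a2.trans a3.le)
      _ = (r ^ (-κ) * (24:ℝ) ^ (D - κ)) * R := by ring
      _ ≤ ε / 16 * R := mul_le_mul_of_nonneg_right a4 hRp.le
  -- the bound for the smooth count
  have hsm := hS (4 ^ J) η (r ^ k) w (η * E) θ hηp h2η (by positivity) (fun t' => by
    have := hJ₀ J hJJ t'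
    exact this)
  -- volumes
  have htR : (r ^ k) ^ (s - 1) = R := by
    rw [hR, ← Real.rpow_natCast r k, ← Real.rpow_mul hr0.le]
    congr 1
    rw [hs, hD]; field_simp
  have hvol : ∀ w' : ℝ, 0 ≤ w' → w' ≤ 2 * w →
      |Vl k d (4 ^ J) (r ^ k) w' - c0 * w' * R| ≤ C1 * (ε / (8 * C1)) * w' * R := by
    intro w' h0 h2
    have b0 : w' ≤ β0 * r ^ k := h2.trans hw2
    have b1 : w' ≤ r ^ k := by linarith
    have b2 : r ^ k + w' ≤ (((4 ^ J : ℕ) : ℕ) : ℝ) ^ k := by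
      rw [hNc]
      have c1 : 2 * r ^ k ≤ (2 * r) ^ k := two_pow hk hr0.le
      have c3 : (2 * r) ^ k ≤ N ^ k := pow_le_pow_left₀ (by linarith) (by linarith) k
      linarith
    rw [hV (4 ^ J) (r ^ k) w' h0 b1 b2]
    have b3 := hslope (r ^ k) w' hrkp h0 b0
    rw [htR] at b3
    have b4 : C1 * ((r ^ k + w') ^ s - (r ^ k - w') ^ s) - c0 * w' * R =
        C1 * ((r ^ k + w') ^ s - (r ^ k - w') ^ s - 2 * w' * s * R) := by
      rw [hc01]; ring
    change |C1 * ((r ^ k + w') ^ s - (r ^ k - w') ^ s) - c0 * w' * R| ≤ _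
    rw [b4, abs_mul, abs_of_pos hC1p]
    calc C1 * |(r ^ k + w') ^ s - (r ^ k - w') ^ s - 2 * w' * s * R|
        ≤ C1 * (ε / (8 * C1) * w' * R) := mul_le_mul_of_nonneg_left b3 hC1p.le
      _ = C1 * (ε / (8 * C1)) * w' * R := by ring
  have e1 : 2 * (w + η) / η * (η * E) = 2 * (w + η) * E := by field_simp
  have e2 : 2 * w / η * (η * E) = 2 * w * E := by field_simp
  rw [e1, e2] at hsm
  exact fin_ineq hc0p hC1p hε hw0 hRp hηp hηw hβ1 hβ2 rfl hEp hER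
    (hvol _ (by linarith) (by linarith)) (hvol _ (by linarith) (by linarith)) hsm.1 hsm.2

end Pool.Agent.W5h6.MC
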