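import Mathlib
import Pool.Agent.W5h6.SW.Defs

/-! Lattice points near `k`-spheres with almost all centres: definitions and statements of the lemmas
(MP_927be3_nt).  `ee`, `bump`, `F`, `g` are those of `Pool.Agent.W5h6.SW`. -/

set_option autoImplicit false

open MeasureTheory
open scoped Real FourierTransform
open Pool.Agent.W5h6.SW (ee bump F g)

namespace Pool.Agent.W5h6.MC

/-- The exponential sum over `|m + θ|^k`, `-N ≤ m < N`. -/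
noncomputable def T (k N : ℕ) (τ θ : ℝ) : ℂ :=
  ∑ m ∈ Finset.Ico (-(N : ℤ)) N, ee (τ * |(m : ℝ) + θ| ^ k)

/-- The corresponding integral. -/
noncomputable def K (k N : ℕ) (τ : ℝ) : ℂ := ∫ y in (-(N : ℝ))..(N : ℝ), ee (τ * |y| ^ k)

/-- The weighted number of the `m` in `[-N, N)^d` with `∑ |m i + θ i|^k` near `t`. -/
noncomputable def cnt (k d N : ℕ) (η t : ℝ) (θ : Fin d → ℝ) : ℝ :=
  ∑ m ∈ Fintype.piFinset (fun _ : Fin d => Finset.Ico (-(N : ℤ)) N),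
    bump ((∑ i, |(m i : ℝ) + θ i| ^ k - t) / η)

/-- The weighted volume. -/
noncomputable def mu (k d N : ℕ) (η t : ℝ) : ℝ :=
  ∫ y in Set.Icc (fun _ : Fin d => -(N : ℝ)) (fun _ => (N : ℝ)),
    bump ((∑ i, |y i| ^ k - t) / η)

/-- The number of the `m` in `[-N, N)^d` with `|∑ |m i + θ i|^k - t| ≤ w`. -/
noncomputable def Cn (k d N : ℕ) (t w : ℝ) (θ : Fin d → ℝ) : ℝ := by
  classical
  exact (((Fintype.piFinset (fun _ : Fin d => Finset.Ico (-(N : ℤ)) N)).filter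
    fun m => |∑ i, |(m i : ℝ) + θ i| ^ k - t| ≤ w).card : ℝ)

/-- The volume of the shell in the box `[-N, N]^d`. -/
noncomputable def Vl (k d N : ℕ) (t w : ℝ) : ℝ :=
  (volume : Measure (Fin d → ℝ)).real
    (Set.Icc (fun _ : Fin d => -(N : ℝ)) (fun _ => (N : ℝ)) ∩ {y | |∑ i, |y i| ^ k - t| ≤ w})

/-- The end of the low frequencies. -/
noncomputable def τ1 (k N : ℕ) : ℝ := (N : ℝ) ^ ((3 : ℝ) / 4 - k)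

/-- (a) mean value over the shift -/
def S_MEAN (k : ℕ) : Prop := ∃ C : ℝ, 0 < C ∧ ∀ (J : ℕ) (τ : ℝ), 1 ≤ J → τ ≠ 0 →
  ∫ θ in (0 : ℝ)..1, ‖T k (4 ^ J) τ θ‖ ≤
    C * ((2 : ℝ) ^ J + (J : ℝ) ^ 2 * |τ| ^ (-(1 / (k : ℝ))))

/-- (b1) trivial bounds and regularity -/
def S_TRIVT (k : ℕ) : Prop :=
  (∀ (N : ℕ) (τ θ : ℝ), ‖T k N τ θ‖ ≤ 2 * N) ∧ (∀ (N : ℕ) (τ : ℝ), ‖K k N τ‖ ≤ 2 * N) ∧
  (∀ N : ℕ, Continuous fun p : ℝ × ℝ => T k N p.1 p.2) ∧ (∀ N : ℕ, Continuous fun τ => K k N τ) ∧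
  (∀ (N : ℕ) (τ : ℝ), ‖K k N τ‖ ≤ ∫ θ in (0 : ℝ)..1, ‖T k N τ θ‖)

/-- (b2) sum and integral at low frequencies -/
def S_LOWT (k : ℕ) : Prop := ∃ C : ℝ, 0 < C ∧ ∀ (N : ℕ) (τ θ : ℝ), 1 ≤ N →
  θ ∈ Set.Icc (0 : ℝ) 1 → ‖T k N τ θ - K k N τ‖ ≤ C * (|τ| * (N : ℝ) ^ k)

/-- (c) the low frequencies, `N = 4^J` -/
def S_LOW (k d : ℕ) : Prop := ∃ C : ℝ, 0 < C ∧ ∀ (J : ℕ) (θ : Fin d → ℝ), 1 ≤ J →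
  (∀ i, θ i ∈ Set.Icc (0 : ℝ) 1) →
  ∫ τ in Set.Icc (-τ1 k (4 ^ J)) (τ1 k (4 ^ J)),
      ‖∏ i, T k (4 ^ J) τ (θ i) - K k (4 ^ J) τ ^ d‖ ≤
    C * (J : ℝ) ^ (2 * k) * (4 ^ J : ℝ) ^ ((d : ℝ) - k - 1 / 4)

/-- (e1) the mass of `g` -/
def S_GL1 : Prop := ∃ c : ℝ, 0 < c ∧ ∀ η : ℝ, 0 < η →
  Continuous (g η) ∧ Integrable (g η) ∧ (∀ τ, ‖g η τ‖ ≤ c * η) ∧ ∫ τ, ‖g η τ‖ ≤ c

/-- (d) the high frequencies, in mean over the shifts -/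
def S_HIGH (k d : ℕ) : Prop := ∃ C : ℝ, 0 < C ∧ ∀ (J : ℕ) (η : ℝ), 1 ≤ J → 0 < η → η ≤ 1 →
  ∫⁻ θ in Set.Icc (0 : Fin d → ℝ) 1, ∫⁻ τ in (Set.Icc (-τ1 k (4 ^ J)) (τ1 k (4 ^ J)))ᶜ,
      ENNReal.ofReal (‖g η τ‖ * (∏ i, ‖T k (4 ^ J) τ (θ i)‖ + ‖K k (4 ^ J) τ‖ ^ d)) ≤
    ENNReal.ofReal (C * ((4 ^ J : ℝ) ^ ((d : ℝ) / 2) +
      η * (J : ℝ) ^ (2 * d) * (4 ^ J : ℝ) ^ ((d : ℝ) - k - 3 / 4)))

/-- (e2) the Fourier integrals of the number and of the volume -/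
def S_REP (k d : ℕ) : Prop :=
  (∀ (N : ℕ) (η t : ℝ) (θ : Fin d → ℝ), 0 < η →
    ((cnt k d N η t θ : ℝ) : ℂ) = ∫ τ, g η τ * ee (-(τ * t)) * ∏ i, T k N τ (θ i)) ∧
  (∀ (N : ℕ) (η t : ℝ), 0 < η →
    ((mu k d N η t : ℝ) : ℂ) = ∫ τ, g η τ * ee (-(τ * t)) * K k N τ ^ d)

/-- (f) from smooth to sharp windows -/
def S_SMOOTH (k d : ℕ) : Prop := ∀ (N : ℕ) (η t w e : ℝ) (θ : Fin d → ℝ), 0 < η → 2 * η ≤ w →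
  0 ≤ e → (∀ t' : ℝ, |cnt k d N η t' θ - mu k d N η t'| ≤ e) →
  Cn k d N t w θ ≤ Vl k d N t (w + 2 * η) + 2 * (w + η) / η * e ∧
  Vl k d N t (w - 2 * η) - 2 * w / η * e ≤ Cn k d N t w θ

/-- (v) the volume of the shell -/
def S_VOL (k d : ℕ) : Prop := ∀ (N : ℕ) (t w : ℝ), 0 ≤ w → w ≤ t → t + w ≤ (N : ℝ) ^ k →
  Vl k d N t w = (2 * Real.Gamma (1 / (k : ℝ) + 1)) ^ d / Real.Gamma ((d : ℝ) / k + 1) *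
    ((t + w) ^ ((d : ℝ) / k) - (t - w) ^ ((d : ℝ) / k))

/-- (h) almost every shift: `N = 4^J`, `η = N^(-δ)`, uniformly in `t` -/
def S_AE (k d : ℕ) : Prop := ∀ δ : ℝ, 0 ≤ δ → 2 * δ < (d : ℝ) - 2 * k → ∃ κ : ℝ, 0 < κ ∧
  ∀ᵐ θ : Fin d → ℝ ∂(volume.restrict (Set.Icc 0 1)), ∃ J₀ : ℕ, ∀ J : ℕ, J₀ ≤ J → ∀ t : ℝ,
    |cnt k d (4 ^ J) ((4 ^ J : ℝ) ^ (-δ)) t θ - mu k d (4 ^ J) ((4 ^ J : ℝ) ^ (-δ)) t| ≤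
      (4 ^ J : ℝ) ^ (-δ) * (4 ^ J : ℝ) ^ ((d : ℝ) - k - κ)

/-- (i) the asymptotic formula for shifts in the unit cube -/
def S_CUBE (k d : ℕ) : Prop := ∀ δ : ℝ, 2 * δ < (d : ℝ) - 2 * k →
  ∀ᵐ θ : Fin d → ℝ ∂(volume.restrict (Set.Icc 0 1)), ∀ ε : ℝ, 0 < ε → ∃ r₀ : ℝ, ∀ r w : ℝ,
    r₀ ≤ r → r ^ (-δ) ≤ w → w ≤ 1 →
    {m : Fin d → ℤ | |∑ i, |(m i : ℝ) + θ i| ^ k - r ^ k| ≤ w}.Finite ∧
    |({m : Fin d → ℤ | |∑ i, |(m i : ℝ) + θ i| ^ k - r ^ k| ≤ w}.ncard : ℝ) -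
      2 * (2 * Real.Gamma (1 / (k : ℝ) + 1)) ^ d / Real.Gamma ((d : ℝ) / k) *
        (w * r ^ ((d : ℝ) - k))| ≤ ε * (w * r ^ ((d : ℝ) - k))

/-- (j) the asymptotic formula for almost all centres in `ℝ^d` -/
def S_ALL (k d : ℕ) : Prop := ∀ δ : ℝ, 2 * δ < (d : ℝ) - 2 * k →
  ∀ᵐ θ : Fin d → ℝ, ∀ ε : ℝ, 0 < ε → ∃ r₀ : ℝ, ∀ r w : ℝ,
    r₀ ≤ r → r ^ (-δ) ≤ w → w ≤ 1 →
    {m : Fin d → ℤ | |∑ i, |(m i : ℝ) - θ i| ^ k - r ^ k| ≤ w}.Finite ∧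
    |({m : Fin d → ℤ | |∑ i, |(m i : ℝ) - θ i| ^ k - r ^ k| ≤ w}.ncard : ℝ) -
      2 * (2 * Real.Gamma (1 / (k : ℝ) + 1)) ^ d / Real.Gamma ((d : ℝ) / k) *
        (w * r ^ ((d : ℝ) - k))| ≤ ε * (w * r ^ ((d : ℝ) - k))

end Pool.Agent.W5h6.MC
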