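import Pool.Agent.W5h6.MC.Defs

/-! Lattice points near `k`-spheres with almost all centres: second round, all dimensions `d ≥ k+1` and
all windows (MP_927be3_nt). -/

set_option autoImplicit false

open MeasureTheory
open scoped Real FourierTransform
open Pool.Agent.W5h6.SW (ee bump F g)

namespace Pool.Agent.W5h6.MC

/-- The end of the low frequencies. -/
noncomputable def τ2 (k N : ℕ) : ℝ := (N : ℝ) ^ ((1 : ℝ) / 2 - k)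

/-- (c2) the low frequencies, `N = 4^J` -/
def S_LOW2 (k d : ℕ) : Prop := ∃ C : ℝ, 0 < C ∧ ∀ (J : ℕ) (θ : Fin d → ℝ), 1 ≤ J →
  (∀ i, θ i ∈ Set.Icc (0 : ℝ) 1) →
  ∫ τ in Set.Icc (-τ2 k (4 ^ J)) (τ2 k (4 ^ J)),
      ‖∏ i, T k (4 ^ J) τ (θ i) - K k (4 ^ J) τ ^ d‖ ≤
    C * (J : ℝ) ^ (2 * k) * (4 ^ J : ℝ) ^ ((d : ℝ) - k - 1 / 4)

/-- (d2) the high frequencies, in mean over the shifts -/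
def S_HIGH2 (k d : ℕ) : Prop := ∃ C : ℝ, 0 < C ∧ ∀ (J : ℕ) (η : ℝ), 1 ≤ J → 0 < η →
  ∫⁻ θ in Set.Icc (0 : Fin d → ℝ) 1, ∫⁻ τ in (Set.Icc (-τ2 k (4 ^ J)) (τ2 k (4 ^ J)))ᶜ,
      ENNReal.ofReal (‖g η τ‖ * (∏ i, ‖T k (4 ^ J) τ (θ i)‖ + ‖K k (4 ^ J) τ‖ ^ d)) ≤
    ENNReal.ofReal (C * ((4 ^ J : ℝ) ^ ((d : ℝ) / 2) +
      η * (J : ℝ) ^ (2 * d) * (4 ^ J : ℝ) ^ ((d : ℝ) - k - 1 / (2 * k))))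

/-- (h2) almost every shift: `N = 4^J`, `η = N^(-δ)` (`δ` may be negative), uniformly in `t` -/
def S_AE2 (k d : ℕ) : Prop := ∀ δ : ℝ, 2 * δ < (d : ℝ) - 2 * k → ∃ κ : ℝ, 0 < κ ∧
  ∀ᵐ θ : Fin d → ℝ ∂(volume.restrict (Set.Icc 0 1)), ∃ J₀ : ℕ, ∀ J : ℕ, J₀ ≤ J → ∀ t : ℝ,
    |cnt k d (4 ^ J) ((4 ^ J : ℝ) ^ (-δ)) t θ - mu k d (4 ^ J) ((4 ^ J : ℝ) ^ (-δ)) t| ≤
      (4 ^ J : ℝ) ^ (-δ) * (4 ^ J : ℝ) ^ ((d : ℝ) - k - κ)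

/-- (i2) the asymptotic formula for shifts in the unit cube -/
def S_CUBE2 (k d : ℕ) : Prop := ∀ δ ρ : ℝ, 2 * δ < (d : ℝ) - 2 * k → 0 < ρ →
  ∀ᵐ θ : Fin d → ℝ ∂(volume.restrict (Set.Icc 0 1)), ∀ ε : ℝ, 0 < ε → ∃ r₀ : ℝ, ∀ r w : ℝ,
    r₀ ≤ r → r ^ (-δ) ≤ w → w ≤ r ^ ((k : ℝ) - ρ) →
    {m : Fin d → ℤ | |∑ i, |(m i : ℝ) + θ i| ^ k - r ^ k| ≤ w}.Finite ∧
    |({m : Fin d → ℤ | |∑ i, |(m i : ℝ) + θ i| ^ k - r ^ k| ≤ w}.ncard : ℝ) -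
      2 * (2 * Real.Gamma (1 / (k : ℝ) + 1)) ^ d / Real.Gamma ((d : ℝ) / k) *
        (w * r ^ ((d : ℝ) - k))| ≤ ε * (w * r ^ ((d : ℝ) - k))

/-- (j2) the asymptotic formula for almost all centres in `ℝ^d` -/
def S_ALL2 (k d : ℕ) : Prop := ∀ δ ρ : ℝ, 2 * δ < (d : ℝ) - 2 * k → 0 < ρ →
  ∀ᵐ θ : Fin d → ℝ, ∀ ε : ℝ, 0 < ε → ∃ r₀ : ℝ, ∀ r w : ℝ,
    r₀ ≤ r → r ^ (-δ) ≤ w → w ≤ r ^ ((k : ℝ) - ρ) →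
    {m : Fin d → ℤ | |∑ i, |(m i : ℝ) - θ i| ^ k - r ^ k| ≤ w}.Finite ∧
    |({m : Fin d → ℤ | |∑ i, |(m i : ℝ) - θ i| ^ k - r ^ k| ≤ w}.ncard : ℝ) -
      2 * (2 * Real.Gamma (1 / (k : ℝ) + 1)) ^ d / Real.Gamma ((d : ℝ) / k) *
        (w * r ^ ((d : ℝ) - k))| ≤ ε * (w * r ^ ((d : ℝ) - k))

end Pool.Agent.W5h6.MC
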