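import Pool.Agent.W5h6.MC.Defs

/-! The high frequencies, in mean over the shifts. -/

set_option autoImplicit false

open MeasureTheory Set
open scoped Real ENNReal
open Pool.Agent.W5h6.SW (ee bump F g)

namespace Pool.Agent.W5h6.MC

namespace HD

/-- The tail integral. -/
theorem tail {t : ℝ} (ht : 0 < t) {a : ℝ} (ha : 2 ≤ a) :
    ∫⁻ τ in (Icc (-t) t)ᶜ, ENNReal.ofReal (|τ| ^ (-a)) ≤
      ENNReal.ofReal (2 * t ^ (1 - a)) := by
  set u : ℝ → ℝ≥0∞ := (Ioi t).indicator fun τ => ENNReal.ofReal (τ ^ (-a)) with hu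
  have hum : Measurable u := by
    refine Measurable.indicator ?_ measurableSet_Ioi
    fun_prop
  have h1 : ∫⁻ τ in (Icc (-t) t)ᶜ, ENNReal.ofReal (|τ| ^ (-a)) ≤
      ∫⁻ τ, (u τ + u (-τ)) := by
    rw [← lintegral_indicator measurableSet_Icc.compl]
    refine lintegral_mono fun τ => ?_
    by_cases hτ : τ ∈ (Icc (-t) t)ᶜ
    · rw [indicator_of_mem hτ]
      rw [mem_compl_iff, mem_Icc, not_and_or, not_le, not_le] at hτ
      rcases hτ with hτ | hτ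
      · refine le_add_left ?_
        have h2 : -τ ∈ Ioi t := by
          rw [mem_Ioi]
          linarith
        rw [hu, indicator_of_mem h2, abs_of_neg (by linarith)]
      · refine le_add_right ?_
        have h2 : τ ∈ Ioi t := hτ
        rw [hu, indicator_of_mem h2, abs_of_pos (by linarith)]
    · rw [indicator_of_notMem hτ]
      exact zero_le
  refine h1.trans ?_
  rw [lintegral_add_left hum, lintegral_neg_eq_self u, hu,
    lintegral_indicator measurableSet_Ioi, ← two_mul,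
    ← ofReal_integral_eq_lintegral_ofReal (integrableOn_Ioi_rpow_of_lt (by linarith) ht)
      ((ae_restrict_mem measurableSet_Ioi).mono fun x hx => by
        rw [mem_Ioi] at hx
        exact Real.rpow_nonneg (by linarith) _),
    integral_Ioi_rpow_of_lt (by linarith) ht]
  rw [show (2 : ℝ≥0∞) = ENNReal.ofReal 2 by simp, ← ENNReal.ofReal_mul (by norm_num)]
  refine ENNReal.ofReal_le_ofReal ?_
  have h3 : 0 < t ^ (-a + 1) := Real.rpow_pos_of_pos ht _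
  rw [show (1 : ℝ) - a = -a + 1 by ring]
  have h4 : -t ^ (-a + 1) / (-a + 1) = t ^ (-a + 1) / (a - 1) := by
    rw [← neg_div_neg_eq]
    congr 1
    · ring
    · ring
  rw [h4]
  gcongr
  exact div_le_self h3.le (by linarith)

/-- The integral of a product over the unit cube. -/
theorem box_prod (s : ℕ) (f : ℝ → ℝ) (hf : Continuous f) (h0 : ∀ x, 0 ≤ f x) :
    ∫⁻ θ in Icc (0 : Fin s → ℝ) 1, ENNReal.ofReal (∏ i, f (θ i)) =
      ENNReal.ofReal ((∫ x in (0 : ℝ)..1, f x) ^ s) := by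
  have hI : IntegrableOn (fun θ : Fin s → ℝ => ∏ i, f (θ i)) (Icc (0 : Fin s → ℝ) 1) :=
    (by fun_prop : Continuous fun θ : Fin s → ℝ => ∏ i, f (θ i)).continuousOn.integrableOn_compact
      isCompact_Icc
  rw [← ofReal_integral_eq_lintegral_ofReal hI (Filter.Eventually.of_forall fun θ =>
    Finset.prod_nonneg fun i _ => h0 _)]
  congr 1
  rw [← Set.pi_univ_Icc, volume_pi, Measure.restrict_pi_pi,
    integral_fintype_prod_eq_prod (fun (_ : Fin s) x => f x)]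
  simp only [Pi.zero_apply, Pi.one_apply, Finset.prod_const, Finset.card_univ, Fintype.card_fin]
  rw [intervalIntegral.integral_of_le zero_le_one, integral_Icc_eq_integral_Ioc]

/-- The inner integral, over the shifts. -/
theorem inner {k d : ℕ} (hT : S_TRIVT k) (N : ℕ) (τ x : ℝ) (hx : 0 ≤ x) :
    ∫⁻ θ in Icc (0 : Fin d → ℝ) 1,
      ENNReal.ofReal (x * (∏ i, ‖T k N τ (θ i)‖ + ‖K k N τ‖ ^ d)) ≤
      ENNReal.ofReal (2 * x * (∫ θ in (0 : ℝ)..1, ‖T k N τ θ‖) ^ d) := by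
  obtain ⟨-, -, hcT, -, hKM⟩ := hT
  set M : ℝ := ∫ θ in (0 : ℝ)..1, ‖T k N τ θ‖ with hM
  have hM0 : 0 ≤ M := (norm_nonneg _).trans (hKM N τ)
  have hMd : 0 ≤ M ^ d := pow_nonneg hM0 d
  have hcf : Continuous fun θ : ℝ => ‖T k N τ θ‖ :=
    ((hcT N).comp (f := fun θ : ℝ => (τ, θ)) (by fun_prop)).norm
  have hbox := box_prod d (fun θ => ‖T k N τ θ‖) hcf fun θ => norm_nonneg _
  have hpt : ∀ θ : Fin d → ℝ, ENNReal.ofReal (x * (∏ i, ‖T k N τ (θ i)‖ + ‖K k N τ‖ ^ d)) ≤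
      ENNReal.ofReal x *
        (ENNReal.ofReal (∏ i, ‖T k N τ (θ i)‖) + ENNReal.ofReal (M ^ d)) := by
    intro θ
    have hp0 : 0 ≤ ∏ i, ‖T k N τ (θ i)‖ := Finset.prod_nonneg fun i _ => norm_nonneg _
    rw [← ENNReal.ofReal_add hp0 hMd, ← ENNReal.ofReal_mul hx]
    refine ENNReal.ofReal_le_ofReal ?_
    have h3 : ‖K k N τ‖ ^ d ≤ M ^ d := pow_le_pow_left₀ (norm_nonneg _) (hKM N τ) d
    exact mul_le_mul_of_nonneg_left (by linarith) hx
  refine (lintegral_mono hpt).trans ?_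
  have hm : Measurable fun θ : Fin d → ℝ => ENNReal.ofReal (∏ i, ‖T k N τ (θ i)‖) := by
    refine Measurable.ennreal_ofReal ?_
    refine Continuous.measurable ?_
    exact continuous_finsetProd _ fun i _ => hcf.comp (continuous_apply i)
  rw [lintegral_const_mul _ (hm.add_const _), lintegral_add_left hm, lintegral_const, hbox]
  have hvol : (volume.restrict (Icc (0 : Fin d → ℝ) 1)) univ = 1 := by
    rw [Measure.restrict_apply_univ, Real.volume_Icc_pi]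
    simp
  rw [hvol, mul_one, ← hM, ← ENNReal.ofReal_add hMd hMd, ← ENNReal.ofReal_mul hx]
  refine ENNReal.ofReal_le_ofReal (le_of_eq ?_)
  ring

end HD

open HD

theorem high {k d : ℕ} (hk : 2 ≤ k) (hd : 2 * k + 1 ≤ d) (hM : S_MEAN k) (hT : S_TRIVT k)
    (hG : S_GL1) : S_HIGH k d := by
  obtain ⟨C1, hC1, hA⟩ := hM
  obtain ⟨c, hc, hG⟩ := hG
  have hT' := hT
  obtain ⟨-, -, hcT, hcK, hKM⟩ := hT'
  have hk0 : (0 : ℝ) < k := by exact_mod_cast (by omega : 0 < k)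
  have hdk : 2 * (k : ℝ) + 1 ≤ d := by exact_mod_cast hd
  set a : ℝ := (d : ℝ) / k with ha
  have ha2 : 2 ≤ a := by
    rw [ha, le_div_iff₀ hk0]
    linarith
  refine ⟨4 * (2 * C1) ^ d * c, by positivity, ?_⟩
  intro J η hJ hη hη1
  obtain ⟨hgc, hgi, hgb, hg1⟩ := hG η hη
  set N : ℕ := 4 ^ J with hN
  have hNc : ((N : ℕ) : ℝ) = (4 ^ J : ℝ) := by rw [hN]; push_cast; rfl
  have hN0 : (0 : ℝ) < (4 ^ J : ℝ) := by positivity
  have hN1 : (1 : ℝ) ≤ (4 ^ J : ℝ) := one_le_pow₀ (by norm_num)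
  have hτ0 : 0 < τ1 k N := by
    unfold τ1
    rw [hNc]
    exact Real.rpow_pos_of_pos hN0 _
  have hJ0 : (0 : ℝ) ≤ (J : ℝ) ^ 2 := by positivity
  have hcont : Continuous fun p : (Fin d → ℝ) × ℝ =>
      ‖g η p.2‖ * (∏ i, ‖T k N p.2 (p.1 i)‖ + ‖K k N p.2‖ ^ d) := by
    have h1 : ∀ i : Fin d, Continuous fun p : (Fin d → ℝ) × ℝ => ‖T k N p.2 (p.1 i)‖ := fun i =>
      ((hcT N).comp (f := fun p : (Fin d → ℝ) × ℝ => (p.2, p.1 i)) (by fun_prop)).norm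
    have h2 : Continuous fun p : (Fin d → ℝ) × ℝ => K k N p.2 := (hcK N).comp continuous_snd
    have h3 : Continuous fun p : (Fin d → ℝ) × ℝ => ∏ i, ‖T k N p.2 (p.1 i)‖ :=
      continuous_finsetProd _ fun i _ => h1 i
    exact (hgc.comp continuous_snd).norm.mul (h3.add (h2.norm.pow d))
  rw [lintegral_lintegral_swap (f := fun (θ : Fin d → ℝ) (τ : ℝ) =>
    ENNReal.ofReal (‖g η τ‖ * (∏ i, ‖T k N τ (θ i)‖ + ‖K k N τ‖ ^ d)))
    hcont.measurable.ennreal_ofReal.aemeasurable]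
  set K1 : ℝ := 2 * (2 * C1) ^ d * (2 : ℝ) ^ (J * d) with hK1
  set K2 : ℝ := 2 * (2 * C1) ^ d * (c * η) * (J : ℝ) ^ (2 * d) with hK2
  have hK10 : 0 ≤ K1 := by positivity
  have hK20 : 0 ≤ K2 := by positivity
  have hpt : ∀ τ ∈ (Icc (-τ1 k N) (τ1 k N))ᶜ, ∫⁻ θ in Icc (0 : Fin d → ℝ) 1,
      ENNReal.ofReal (‖g η τ‖ * (∏ i, ‖T k N τ (θ i)‖ + ‖K k N τ‖ ^ d)) ≤
      ENNReal.ofReal K1 * ENNReal.ofReal ‖g η τ‖ +
      ENNReal.ofReal K2 * ENNReal.ofReal (|τ| ^ (-a)) := by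
    intro τ hτ
    have hτne : τ ≠ 0 := by
      rintro rfl
      exact hτ ⟨by linarith, hτ0.le⟩
    have hτ1 : 0 < |τ| := abs_pos.2 hτne
    refine (inner hT N τ ‖g η τ‖ (norm_nonneg _)).trans ?_
    have hrp : 0 ≤ |τ| ^ (-a) := Real.rpow_nonneg (abs_nonneg _) _
    rw [← ENNReal.ofReal_mul hK10, ← ENNReal.ofReal_mul hK20,
      ← ENNReal.ofReal_add (by positivity) (by positivity)]
    refine ENNReal.ofReal_le_ofReal ?_
    have hA0 : 0 ≤ ∫ θ in (0 : ℝ)..1, ‖T k N τ θ‖ := (norm_nonneg _).trans (hKM N τ)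
    have hq0 : 0 ≤ (J : ℝ) ^ 2 * |τ| ^ (-(1 / (k : ℝ))) :=
      mul_nonneg hJ0 (Real.rpow_nonneg (abs_nonneg _) _)
    have h1 : (∫ θ in (0 : ℝ)..1, ‖T k N τ θ‖) ^ d ≤ (2 * C1) ^ d * (((2 : ℝ) ^ J) ^ d +
        ((J : ℝ) ^ 2 * |τ| ^ (-(1 / (k : ℝ)))) ^ d) := by
      calc (∫ θ in (0 : ℝ)..1, ‖T k N τ θ‖) ^ d
          ≤ (C1 * ((2 : ℝ) ^ J + (J : ℝ) ^ 2 * |τ| ^ (-(1 / (k : ℝ))))) ^ d :=
            pow_le_pow_left₀ hA0 (hA J τ hJ hτne) d
        _ = C1 ^ d * ((2 : ℝ) ^ J + (J : ℝ) ^ 2 * |τ| ^ (-(1 / (k : ℝ)))) ^ d := mul_pow _ _ _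
        _ ≤ C1 ^ d * (2 ^ (d - 1) * (((2 : ℝ) ^ J) ^ d +
            ((J : ℝ) ^ 2 * |τ| ^ (-(1 / (k : ℝ)))) ^ d)) := by
            gcongr
            exact add_pow_le (by positivity) hq0 d
        _ ≤ C1 ^ d * (2 ^ d * (((2 : ℝ) ^ J) ^ d +
            ((J : ℝ) ^ 2 * |τ| ^ (-(1 / (k : ℝ)))) ^ d)) := by
            gcongr
            · norm_num
            · omega
        _ = _ := by rw [mul_pow]; ring
    have h2 : ((J : ℝ) ^ 2 * |τ| ^ (-(1 / (k : ℝ)))) ^ d =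
        (J : ℝ) ^ (2 * d) * |τ| ^ (-a) := by
      rw [mul_pow, ← pow_mul]
      congr 1
      rw [← Real.rpow_natCast (|τ| ^ (-(1 / (k : ℝ)))) d, ← Real.rpow_mul (abs_nonneg _)]
      congr 1
      rw [ha]
      ring
    rw [h2, ← pow_mul] at h1
    calc 2 * ‖g η τ‖ * (∫ θ in (0 : ℝ)..1, ‖T k N τ θ‖) ^ d
        ≤ 2 * ‖g η τ‖ * ((2 * C1) ^ d * ((2 : ℝ) ^ (J * d) +
          (J : ℝ) ^ (2 * d) * |τ| ^ (-a))) := by gcongr
      _ = K1 * ‖g η τ‖ + 2 * ‖g η τ‖ * ((2 * C1) ^ d *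
          ((J : ℝ) ^ (2 * d) * |τ| ^ (-a))) := by
          rw [hK1]; ring
      _ ≤ K1 * ‖g η τ‖ + 2 * (c * η) * ((2 * C1) ^ d *
          ((J : ℝ) ^ (2 * d) * |τ| ^ (-a))) := by
          gcongr
          exact hgb τ
      _ = _ := by rw [hK2]; ring
  refine (setLIntegral_mono' measurableSet_Icc.compl hpt).trans ?_
  have hGm2 : Measurable fun τ => ENNReal.ofReal ‖g η τ‖ :=
    hgc.norm.measurable.ennreal_ofReal
  have hGm : Measurable fun τ => ENNReal.ofReal K1 * ENNReal.ofReal ‖g η τ‖ :=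
    hGm2.const_mul _
  rw [lintegral_add_left hGm, lintegral_const_mul _ hGm2, lintegral_const_mul _ (by fun_prop)]
  have h4 : ∫⁻ τ in (Icc (-τ1 k N) (τ1 k N))ᶜ, ENNReal.ofReal ‖g η τ‖ ≤
      ENNReal.ofReal c := by
    refine (setLIntegral_le_lintegral _ _).trans ?_
    rw [← ofReal_integral_eq_lintegral_ofReal hgi.norm (Filter.Eventually.of_forall fun τ =>
      norm_nonneg _)]
    exact ENNReal.ofReal_le_ofReal hg1
  have h5 := tail hτ0 ha2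
  have hτp : 0 ≤ τ1 k N ^ (1 - a) := Real.rpow_nonneg hτ0.le _
  have h45 : ENNReal.ofReal K1 * (∫⁻ (b : ℝ) in (Icc (-τ1 k N) (τ1 k N))ᶜ,
      ENNReal.ofReal ‖g η b‖) + ENNReal.ofReal K2 * (∫⁻ (b : ℝ) in
      (Icc (-τ1 k N) (τ1 k N))ᶜ, ENNReal.ofReal (|b| ^ (-a))) ≤
      ENNReal.ofReal K1 * ENNReal.ofReal c +
      ENNReal.ofReal K2 * ENNReal.ofReal (2 * τ1 k N ^ (1 - a)) := by gcongr
  refine h45.trans ?_
  rw [← ENNReal.ofReal_mul hK10, ← ENNReal.ofReal_mul hK20,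
    ← ENNReal.ofReal_add (by positivity) (by positivity)]
  refine ENNReal.ofReal_le_ofReal ?_
  -- the exponents
  have hexp1 : (2 : ℝ) ^ (J * d) = (4 ^ J : ℝ) ^ ((d : ℝ) / 2) := by
    rw [show (4 ^ J : ℝ) = ((2 : ℝ) ^ J) ^ (2 : ℝ) by
      rw [Real.rpow_two, ← pow_mul, mul_comm J 2, pow_mul]; norm_num]
    rw [← Real.rpow_mul (by positivity), show (2 : ℝ) * ((d : ℝ) / 2) = d by ring,
      Real.rpow_natCast, ← pow_mul]
  have hexp2 : τ1 k N ^ (1 - a) ≤ (4 ^ J : ℝ) ^ ((d : ℝ) - k - 3 / 4) := by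
    unfold τ1
    rw [hNc, ← Real.rpow_mul hN0.le]
    refine Real.rpow_le_rpow_of_exponent_le hN1 ?_
    have h6 : (k : ℝ) * a = d := by rw [ha]; field_simp
    nlinarith
  have hE1 : 0 ≤ (4 ^ J : ℝ) ^ ((d : ℝ) / 2) := Real.rpow_nonneg hN0.le _
  have hE2 : 0 ≤ (4 ^ J : ℝ) ^ ((d : ℝ) - k - 3 / 4) := Real.rpow_nonneg hN0.le _
  calc K1 * c + K2 * (2 * τ1 k N ^ (1 - a))
      ≤ K1 * c + K2 * (2 * (4 ^ J : ℝ) ^ ((d : ℝ) - k - 3 / 4)) := by gcongr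
    _ = 2 * (2 * C1) ^ d * c * (4 ^ J : ℝ) ^ ((d : ℝ) / 2) +
        4 * (2 * C1) ^ d * c * (η * (J : ℝ) ^ (2 * d) * (4 ^ J : ℝ) ^ ((d : ℝ) - k - 3 / 4)) := by
        rw [hK1, hK2, hexp1]; ring
    _ ≤ 4 * (2 * C1) ^ d * c * (4 ^ J : ℝ) ^ ((d : ℝ) / 2) +
        4 * (2 * C1) ^ d * c * (η * (J : ℝ) ^ (2 * d) * (4 ^ J : ℝ) ^ ((d : ℝ) - k - 3 / 4)) := by
        gcongr
        norm_num
    _ = _ := by ring

end Pool.Agent.W5h6.MC
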