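import Mathlib
import Pool.Agent.W5h6.MC.Defs

/-! Lattice points near `k`-spheres with almost all centres: the low frequencies (MP_927be3_nt). -/

set_option autoImplicit false

open MeasureTheory
open scoped Real FourierTransform
open Pool.Agent.W5h6.SW (ee bump F g)

namespace Pool.Agent.W5h6.MC

theorem lw_prod {ι : Type} [DecidableEq ι] (s : Finset ι) (a : ι → ℂ) (b : ℂ) (M E : ℝ)
    (hb : ‖b‖ ≤ M) (hM : 0 ≤ M) (hE : 0 ≤ E) (ha : ∀ i ∈ s, ‖a i - b‖ ≤ E) :
    ‖∏ i ∈ s, a i - b ^ s.card‖ ≤ s.card * E * (M + E) ^ (s.card - 1) ∧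
      ‖∏ i ∈ s, a i‖ ≤ (M + E) ^ s.card := by
  induction s using Finset.induction_on with
  | empty => simp
  | insert j s hj ih =>
    obtain ⟨h1, h2⟩ := ih (fun i hi => ha i (Finset.mem_insert_of_mem hi))
    have haj := ha j (Finset.mem_insert_self j s)
    have haj' : ‖a j‖ ≤ M + E := by
      calc ‖a j‖ = ‖b + (a j - b)‖ := by ring_nf
        _ ≤ ‖b‖ + ‖a j - b‖ := norm_add_le _ _
        _ ≤ M + E := by linarith
    rw [Finset.card_insert_of_notMem hj, Finset.prod_insert hj]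
    constructor
    · have e : a j * ∏ i ∈ s, a i - b ^ (s.card + 1) =
          (a j - b) * ∏ i ∈ s, a i + b * (∏ i ∈ s, a i - b ^ s.card) := by ring
      rw [e]
      calc ‖(a j - b) * ∏ i ∈ s, a i + b * (∏ i ∈ s, a i - b ^ s.card)‖
          ≤ ‖a j - b‖ * ‖∏ i ∈ s, a i‖ + ‖b‖ * ‖∏ i ∈ s, a i - b ^ s.card‖ := by
            refine (norm_add_le _ _).trans ?_
            rw [norm_mul, norm_mul]
        _ ≤ E * (M + E) ^ s.card + M * (s.card * E * (M + E) ^ (s.card - 1)) := by gcongr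
        _ ≤ _ := by
          rcases Nat.eq_zero_or_pos s.card with h0 | h0
          · simp [h0]
          · obtain ⟨n, hn⟩ : ∃ n, s.card = n + 1 := ⟨s.card - 1, by omega⟩
            rw [hn]; simp only [Nat.add_sub_cancel]
            push_cast
            have h3 : M * (((n:ℝ) + 1) * E * (M + E) ^ n) ≤
                (M + E) * (((n:ℝ)+1) * E * (M + E) ^ n) := by gcongr; linarith
            calc _ ≤ E * (M+E)^(n+1) + (M + E) * (((n:ℝ)+1) * E * (M + E) ^ n) := by linarith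
              _ = _ := by ring
    · rw [norm_mul, pow_succ']
      gcongr

theorem low {k d : ℕ} (hk : 2 ≤ k) (hd : 2 * k + 1 ≤ d) (hM : S_MEAN k) (hT : S_TRIVT k)
    (hL : S_LOWT k) : S_LOW k d := by
  obtain ⟨CM, hCM, hM⟩ := hM
  obtain ⟨CL, hCL, hL⟩ := hL
  obtain ⟨hT1, hK1, hcT, hcK, hKT⟩ := hT
  set A : ℝ := d * 2 ^ (d - 2) * (CL * 2 ^ (d - 1 - k) * (2 * CM) ^ k + CL ^ d) with hA
  have hd0 : (0 : ℝ) < d := by exact_mod_cast (by omega : 0 < d)
  have hApos : 0 < A := by positivity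
  refine ⟨2 * A, by positivity, fun J θ hJ hθ => ?_⟩
  set n : ℝ := (4 : ℝ) ^ J with hn
  have hn1 : 1 ≤ n := one_le_pow₀ (by norm_num)
  have hn0 : 0 < n := by linarith
  have hJ1 : (1 : ℝ) ≤ J := by exact_mod_cast hJ
  have hτ : τ1 k (4 ^ J) = n ^ ((3 : ℝ) / 4 - k) := by simp [τ1, hn]
  have hk0 : (0 : ℝ) < k := by exact_mod_cast (by omega : 0 < k)
  have hk2 : (2 : ℝ) ≤ k := by exact_mod_cast hk
  have hnn : (((4 ^ J : ℕ) : ℝ)) = n := by simp [hn]
  have key : ∀ τ ∈ Set.Icc (-τ1 k (4 ^ J)) (τ1 k (4 ^ J)),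
      ‖‖∏ i, T k (4 ^ J) τ (θ i) - K k (4 ^ J) τ ^ d‖‖ ≤
        A * (J : ℝ) ^ (2 * k) * n ^ (d - 1) := by
    intro τ hτm
    rw [norm_norm]
    have habs : |τ| ≤ n ^ ((3 : ℝ) / 4 - k) := by rw [← hτ]; exact abs_le.2 hτm
    set E : ℝ := CL * (|τ| * n ^ k) with hE
    set M : ℝ := ‖K k (4 ^ J) τ‖ with hMdef
    have hE0 : 0 ≤ E := by positivity
    have hM0 : 0 ≤ M := norm_nonneg _
    have hp := (lw_prod (Finset.univ : Finset (Fin d)) (fun i => T k (4 ^ J) τ (θ i))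
      (K k (4 ^ J) τ) M E le_rfl hM0 hE0 (fun i _ => by
        have := hL (4 ^ J) τ (θ i) (Nat.one_le_pow _ _ (by norm_num)) (hθ i)
        rwa [hnn] at this)).1
    rw [Finset.card_univ, Fintype.card_fin] at hp
    refine hp.trans ?_
    have h2 : (M + E) ^ (d - 1) ≤ 2 ^ (d - 2) * (M ^ (d - 1) + E ^ (d - 1)) := by
      have := add_pow_le hM0 hE0 (d - 1)
      rwa [show d - 1 - 1 = d - 2 by omega] at this
    -- the bound for `E`
    have hnk : |τ| * n ^ k ≤ n ^ ((3 : ℝ) / 4) := by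
      calc |τ| * n ^ k ≤ n ^ ((3 : ℝ) / 4 - k) * n ^ k := by gcongr
        _ = n ^ ((3 : ℝ) / 4) := by
          rw [← Real.rpow_natCast n k, ← Real.rpow_add hn0]; congr 1; ring
    have hEd : E ^ d ≤ CL ^ d * n ^ (d - 1) := by
      rw [hE, mul_pow]
      refine mul_le_mul_of_nonneg_left ?_ (by positivity)
      calc (|τ| * n ^ k) ^ d ≤ (n ^ ((3 : ℝ) / 4)) ^ d := by gcongr
        _ = n ^ ((3 : ℝ) / 4 * d) := by rw [← Real.rpow_natCast, ← Real.rpow_mul hn0.le]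
        _ ≤ n ^ (((d - 1 : ℕ) : ℝ)) := by
          apply Real.rpow_le_rpow_of_exponent_le hn1
          have : ((d - 1 : ℕ) : ℝ) = d - 1 := by
            rw [Nat.cast_sub (by omega)]; simp
          rw [this]
          have : (4 : ℝ) ≤ d := by exact_mod_cast (by omega : 4 ≤ d)
          linarith
        _ = n ^ (d - 1) := Real.rpow_natCast _ _
    have hEM : E * M ^ (d - 1) ≤
        CL * 2 ^ (d - 1 - k) * (2 * CM) ^ k * (J : ℝ) ^ (2 * k) * n ^ (d - 1) := by
      rcases eq_or_ne τ 0 with h0 | h0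
      · have : E = 0 := by rw [hE, h0]; simp
        rw [this, zero_mul]; positivity
      · have hτ0 : 0 < |τ| := abs_pos.2 h0
        have hM1 : M ≤ 2 * n := by
          have := hK1 (4 ^ J) τ
          rwa [hnn] at this
        have hsq : (2 : ℝ) ^ J ≤ |τ| ^ (-(1 / (k : ℝ))) := by
          have e1 : (2 : ℝ) ^ J = n ^ ((1 : ℝ) / 2) := by
            rw [← Real.sqrt_eq_rpow, hn, show (4 : ℝ) = 2 ^ 2 by norm_num, ← pow_mul,
              mul_comm 2 J, pow_mul, Real.sqrt_sq (by positivity)]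
          rw [e1]
          calc n ^ ((1 : ℝ) / 2) ≤ n ^ (((3 : ℝ) / 4 - k) * (-(1 / (k : ℝ)))) := by
                apply Real.rpow_le_rpow_of_exponent_le hn1
                rw [show ((3 : ℝ) / 4 - k) * (-(1 / (k : ℝ))) = 1 - 3 / (4 * k) by
                  field_simp; ring]
                have : 3 / (4 * (k : ℝ)) ≤ 1 / 2 := by
                  rw [div_le_iff₀ (by positivity)]; linarith
                linarith
            _ = (n ^ ((3 : ℝ) / 4 - k)) ^ (-(1 / (k : ℝ))) := by rw [← Real.rpow_mul hn0.le]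
            _ ≤ |τ| ^ (-(1 / (k : ℝ))) := by
                apply Real.rpow_le_rpow_of_nonpos hτ0 habs
                have : 0 < 1 / (k : ℝ) := by positivity
                linarith
        have hM2 : M ≤ 2 * CM * (J : ℝ) ^ 2 * |τ| ^ (-(1 / (k : ℝ))) := by
          have h3 := (hKT (4 ^ J) τ).trans (hM J τ hJ h0)
          have h4 : (2 : ℝ) ^ J ≤ (J : ℝ) ^ 2 * |τ| ^ (-(1 / (k : ℝ))) := by
            have : (1 : ℝ) ≤ (J : ℝ) ^ 2 := one_le_pow₀ hJ1
            have h5 : 0 ≤ |τ| ^ (-(1 / (k : ℝ))) := by positivity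
            nlinarith
          calc M ≤ CM * ((2 : ℝ) ^ J + (J : ℝ) ^ 2 * |τ| ^ (-(1 / (k : ℝ)))) := h3
            _ ≤ CM * ((J : ℝ) ^ 2 * |τ| ^ (-(1 / (k : ℝ))) +
                (J : ℝ) ^ 2 * |τ| ^ (-(1 / (k : ℝ)))) := by gcongr
            _ = _ := by ring
        have hMk : M ^ k ≤ (2 * CM) ^ k * (J : ℝ) ^ (2 * k) * |τ|⁻¹ := by
          calc M ^ k ≤ (2 * CM * (J : ℝ) ^ 2 * |τ| ^ (-(1 / (k : ℝ)))) ^ k := by gcongr
            _ = (2 * CM) ^ k * (J : ℝ) ^ (2 * k) * (|τ| ^ (-(1 / (k : ℝ)))) ^ k := by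
                rw [mul_pow, mul_pow, ← pow_mul]
            _ = _ := by
                rw [← Real.rpow_natCast (|τ| ^ (-(1 / (k : ℝ)))) k, ← Real.rpow_mul hτ0.le,
                  show -(1 / (k : ℝ)) * k = -1 by field_simp, Real.rpow_neg_one]
        calc E * M ^ (d - 1) = E * (M ^ (d - 1 - k) * M ^ k) := by
              rw [← pow_add, show d - 1 - k + k = d - 1 by omega]
          _ ≤ E * ((2 * n) ^ (d - 1 - k) * ((2 * CM) ^ k * (J : ℝ) ^ (2 * k) * |τ|⁻¹)) := by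
              gcongr
          _ = CL * 2 ^ (d - 1 - k) * (2 * CM) ^ k * (J : ℝ) ^ (2 * k) *
                (n ^ (d - 1 - k) * n ^ k) * (|τ| * |τ|⁻¹) := by rw [hE, mul_pow]; ring
          _ = _ := by
              rw [← pow_add, show d - 1 - k + k = d - 1 by omega,
                mul_inv_cancel₀ hτ0.ne', mul_one]
    have hJk : (1 : ℝ) ≤ (J : ℝ) ^ (2 * k) := one_le_pow₀ hJ1
    calc (d : ℝ) * E * (M + E) ^ (d - 1)
        ≤ (d : ℝ) * E * (2 ^ (d - 2) * (M ^ (d - 1) + E ^ (d - 1))) := by gcongr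
      _ = (d : ℝ) * 2 ^ (d - 2) * (E * M ^ (d - 1) + E * E ^ (d - 1)) := by ring
      _ = (d : ℝ) * 2 ^ (d - 2) * (E * M ^ (d - 1) + E ^ d) := by
          rw [← pow_succ', show d - 1 + 1 = d by omega]
      _ ≤ (d : ℝ) * 2 ^ (d - 2) *
          (CL * 2 ^ (d - 1 - k) * (2 * CM) ^ k * (J : ℝ) ^ (2 * k) * n ^ (d - 1) +
            CL ^ d * n ^ (d - 1) * (J : ℝ) ^ (2 * k)) := by
          gcongr
          calc E ^ d ≤ CL ^ d * n ^ (d - 1) := hEd
            _ = CL ^ d * n ^ (d - 1) * 1 := by ring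
            _ ≤ _ := by gcongr
      _ = A * (J : ℝ) ^ (2 * k) * n ^ (d - 1) := by rw [hA]; ring
  have h1 := norm_setIntegral_le_of_norm_le_const (μ := volume)
    (s := Set.Icc (-τ1 k (4 ^ J)) (τ1 k (4 ^ J))) measure_Icc_lt_top key
  have h2 := (le_abs_self _).trans ((Real.norm_eq_abs _).symm.le.trans h1)
  refine h2.trans (le_of_eq ?_)
  have hτ0 : 0 ≤ τ1 k (4 ^ J) := by rw [hτ]; positivity
  rw [Measure.real, Real.volume_Icc, ENNReal.toReal_ofReal (by linarith), hτ]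
  have e2 : n ^ ((d : ℝ) - k - 1 / 4) = n ^ (d - 1) * n ^ ((3 : ℝ) / 4 - k) := by
    rw [← Real.rpow_natCast n (d - 1), ← Real.rpow_add hn0]
    congr 1
    rw [Nat.cast_sub (by omega)]; push_cast; ring
  rw [e2]; ring

end Pool.Agent.W5h6.MC
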