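import Pool.Agent.W5h6.MC.Defs

/-! (a) The mean of the exponential sum over the shift. -/

set_option autoImplicit false

open MeasureTheory intervalIntegral
open scoped Real
open Pool.Agent.W5h6.SW (ee)

namespace Pool.Agent.W5h6.MC

theorem Mean.norm_ee (a : ℝ) : ‖ee a‖ = 1 := by
  unfold SW.ee
  have : (2 * (π : ℂ) * (a : ℂ) * Complex.I) = ((2 * π * a : ℝ) : ℂ) * Complex.I := by
    push_cast; ring
  rw [this, Complex.norm_exp_ofReal_mul_I]

theorem Mean.continuous_ee : Continuous ee := by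
  unfold SW.ee
  fun_prop

/-- Cauchy-Schwarz. -/
theorem Mean.sq_le (f : ℝ → ℂ) (hf : Continuous f) :
    (∫ θ in (0 : ℝ)..1, ‖f θ‖) ^ 2 ≤ ∫ θ in (0 : ℝ)..1, ‖f θ‖ ^ 2 := by
  set c := ∫ θ in (0 : ℝ)..1, ‖f θ‖ with hc
  have h0 : 0 ≤ ∫ θ in (0 : ℝ)..1, (‖f θ‖ - c) ^ 2 :=
    intervalIntegral.integral_nonneg zero_le_one fun θ _ => sq_nonneg _
  have h1 : ∫ θ in (0 : ℝ)..1, (‖f θ‖ - c) ^ 2 =
      (∫ θ in (0 : ℝ)..1, ‖f θ‖ ^ 2) - c ^ 2 := by
    have e : ∀ θ : ℝ, (‖f θ‖ - c) ^ 2 = ‖f θ‖ ^ 2 - (2 * c) * ‖f θ‖ + c ^ 2 := fun θ => by ring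
    rw [intervalIntegral.integral_congr (fun θ _ => e θ), intervalIntegral.integral_add,
      intervalIntegral.integral_sub, intervalIntegral.integral_const_mul, ← hc,
      intervalIntegral.integral_const]
    · simp only [sub_zero, one_smul]; ring
    · exact (hf.norm.pow 2).intervalIntegrable _ _
    · exact (continuous_const.mul hf.norm).intervalIntegrable _ _
    · exact ((hf.norm.pow 2).sub (continuous_const.mul hf.norm)).intervalIntegrable _ _
    · exact intervalIntegrable_const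
  rw [h1] at h0
  linarith

/-- one dyadic piece -/
theorem Mean.piece {k : ℕ} (hk : 2 ≤ k) {C : ℝ} (hC : 0 < C)
    (hA : ∀ (R : ℕ) (τ : ℝ), 2 ≤ R → τ ≠ 0 →
      SW.A k R τ ≤ C * ((R : ℝ) + Real.log R / (|τ| * (R : ℝ) ^ (k - 2))))
    (hT : SW.S_TRIV k) (j : ℕ) {τ : ℝ} (hτ : τ ≠ 0) :
    ∫ θ in (0 : ℝ)..1, ‖SW.S k (4 ^ j) τ θ‖ ≤
      (3 + 2 * Real.sqrt C) * ((2 : ℝ) ^ j + j * |τ| ^ (-(1 / (k : ℝ)))) := by
  obtain ⟨hT1, -, hT3, -, -⟩ := hT
  have hcont : Continuous fun θ => SW.S k (4 ^ j) τ θ :=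
    (hT3 (4 ^ j)).comp (Continuous.prodMk_right τ)
  set X : ℝ := |τ| ^ (-(1 / (k : ℝ))) with hX
  have hτ' : 0 < |τ| := abs_pos.mpr hτ
  have hX0 : 0 < X := Real.rpow_pos_of_pos hτ' _
  have hs0 : 0 ≤ Real.sqrt C := Real.sqrt_nonneg C
  set c := ∫ θ in (0 : ℝ)..1, ‖SW.S k (4 ^ j) τ θ‖ with hc
  have hc0 : 0 ≤ c := intervalIntegral.integral_nonneg zero_le_one fun θ _ => norm_nonneg _
  have htriv : c ≤ 3 * (4 : ℝ) ^ j := by
    have h1 : c ≤ ∫ _θ in (0 : ℝ)..1, 3 * (4 : ℝ) ^ j := by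
      apply intervalIntegral.integral_mono_on zero_le_one (hcont.norm.intervalIntegrable _ _)
        intervalIntegrable_const
      intro θ _
      have := hT1 (4 ^ j) τ θ
      push_cast at this
      exact this
    rw [intervalIntegral.integral_const] at h1
    simpa using h1
  rcases Nat.eq_zero_or_pos j with hj | hj
  · subst hj
    simp only [pow_zero, mul_one, Nat.cast_zero, zero_mul, add_zero] at htriv ⊢
    linarith
  have hj1 : (1 : ℝ) ≤ j := by exact_mod_cast hj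
  rcases le_total ((4 : ℝ) ^ j) X with hR | hR
  · calc c ≤ 3 * (4 : ℝ) ^ j := htriv
      _ ≤ 3 * X := by linarith
      _ ≤ 3 * (j * X) := by nlinarith
      _ ≤ (3 + 2 * Real.sqrt C) * ((2 : ℝ) ^ j + j * X) := by
        have h2 : (0 : ℝ) < 2 ^ j := by positivity
        have h3 : 0 ≤ (j : ℝ) * X := by positivity
        nlinarith [mul_nonneg hs0 h2.le, mul_nonneg hs0 h3]
  · -- the first derivative test
    have hR2 : 2 ≤ 4 ^ j := by
      calc 2 ≤ 4 ^ 1 := by norm_num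
        _ ≤ 4 ^ j := Nat.pow_le_pow_right (by norm_num) hj
    have hAj := hA (4 ^ j) τ hR2 hτ
    have hk0 : (k : ℝ) ≠ 0 := by
      have : 0 < k := by omega
      positivity
    have hXk : X ^ k = |τ|⁻¹ := by
      rw [hX, ← Real.rpow_natCast, ← Real.rpow_mul hτ'.le]
      have : -(1 / (k : ℝ)) * (k : ℝ) = -1 := by field_simp
      rw [this, Real.rpow_neg_one]
    have hlog : Real.log ((4 ^ j : ℕ) : ℝ) ≤ 2 * j := by
      push_cast
      rw [Real.log_pow]
      have h4 : Real.log 4 ≤ 2 := by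
        have : (4 : ℝ) = 2 ^ 2 := by norm_num
        rw [this, Real.log_pow]
        have := Real.log_two_lt_d9
        push_cast
        linarith
      nlinarith
    have hlog0 : 0 ≤ Real.log ((4 ^ j : ℕ) : ℝ) := by
      apply Real.log_nonneg
      push_cast
      exact one_le_pow₀ (by norm_num)
    have hRpos : (0 : ℝ) < (4 : ℝ) ^ j := by positivity
    have hterm : Real.log ((4 ^ j : ℕ) : ℝ) / (|τ| * ((4 ^ j : ℕ) : ℝ) ^ (k - 2)) ≤
        2 * j * X ^ 2 := by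
      have e1 : 1 / (|τ| * ((4 ^ j : ℕ) : ℝ) ^ (k - 2)) ≤ X ^ 2 := by
        have e2 : 1 / (|τ| * ((4 ^ j : ℕ) : ℝ) ^ (k - 2)) = X ^ k / ((4 : ℝ) ^ j) ^ (k - 2) := by
          rw [hXk]; push_cast; field_simp
        rw [e2, div_le_iff₀ (by positivity)]
        obtain ⟨m, rfl⟩ : ∃ m, k = m + 2 := ⟨k - 2, by omega⟩
        rw [show m + 2 - 2 = m by omega, pow_add, mul_comm]
        exact mul_le_mul_of_nonneg_left (pow_le_pow_left₀ hX0.le hR m) (by positivity)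
      calc Real.log ((4 ^ j : ℕ) : ℝ) / (|τ| * ((4 ^ j : ℕ) : ℝ) ^ (k - 2))
          = Real.log ((4 ^ j : ℕ) : ℝ) * (1 / (|τ| * ((4 ^ j : ℕ) : ℝ) ^ (k - 2))) := by ring
        _ ≤ (2 * j) * X ^ 2 := mul_le_mul hlog e1 (by positivity) (by positivity)
    have hsq : c ^ 2 ≤ (Real.sqrt C * ((2 : ℝ) ^ j + 2 * (j * X))) ^ 2 := by
      have h1 : c ^ 2 ≤ SW.A k (4 ^ j) τ := Mean.sq_le _ hcont
      have h4 : ((2 : ℝ) ^ j) ^ 2 = 4 ^ j := by
        rw [← pow_mul, mul_comm j 2, pow_mul]; norm_num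
      have hjj : (j : ℝ) ≤ (j : ℝ) ^ 2 := by nlinarith
      calc c ^ 2 ≤ SW.A k (4 ^ j) τ := h1
        _ ≤ C * ((4 : ℝ) ^ j + 2 * j * X ^ 2) := by
          refine hAj.trans (mul_le_mul_of_nonneg_left ?_ hC.le)
          have : (((4 ^ j : ℕ)) : ℝ) = (4 : ℝ) ^ j := by push_cast; rfl
          linarith [hterm]
        _ ≤ C * ((2 : ℝ) ^ j + 2 * (j * X)) ^ 2 := by
          apply mul_le_mul_of_nonneg_left _ hC.le
          have h5 : (0 : ℝ) ≤ 2 ^ j * (j * X) := by positivity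
          have h6 : (j : ℝ) * X ^ 2 ≤ (j : ℝ) ^ 2 * X ^ 2 :=
            mul_le_mul_of_nonneg_right hjj (by positivity)
          have h7 : 0 ≤ (j : ℝ) ^ 2 * X ^ 2 := by positivity
          have h8 : ((2 : ℝ) ^ j + 2 * (j * X)) ^ 2 =
              (2 ^ j) ^ 2 + 4 * (2 ^ j * (j * X)) + 4 * ((j : ℝ) ^ 2 * X ^ 2) := by ring
          rw [h8, h4]
          linarith
        _ = (Real.sqrt C * ((2 : ℝ) ^ j + 2 * (j * X))) ^ 2 := by
          rw [mul_pow, Real.sq_sqrt hC.le]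
    have hfin : c ≤ Real.sqrt C * ((2 : ℝ) ^ j + 2 * (j * X)) :=
      (sq_le_sq₀ hc0 (by positivity)).mp hsq
    have h2 : (0 : ℝ) < 2 ^ j := by positivity
    have h3 : 0 ≤ (j : ℝ) * X := by positivity
    nlinarith [mul_nonneg hs0 h2.le, mul_nonneg hs0 h3]

/-- The sum over a symmetric interval. -/
theorem Mean.sum_symm (f : ℤ → ℂ) (N : ℕ) :
    ∑ m ∈ Finset.Ico (-(N : ℤ)) N, f m =
      ∑ x ∈ Finset.range N, f x + ∑ x ∈ Finset.range N, f (-(x : ℤ) - 1) := by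
  induction N with
  | zero => simp
  | succ N ih =>
    have h1 : Finset.Ico (-((N + 1 : ℕ) : ℤ)) ((N + 1 : ℕ) : ℤ) =
        insert (-(N : ℤ) - 1) (insert (N : ℤ) (Finset.Ico (-(N : ℤ)) N)) := by
      ext m
      simp only [Finset.mem_Ico, Finset.mem_insert]
      omega
    rw [h1, Finset.sum_insert, Finset.sum_insert, ih, Finset.sum_range_succ,
      Finset.sum_range_succ]
    · ring
    · simp
    · simp only [Finset.mem_insert, Finset.mem_Ico]
      omega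

/-- The splitting into pieces with ratio four. -/
theorem Mean.sum_pieces (f : ℕ → ℂ) (J : ℕ) :
    ∑ x ∈ Finset.range (4 ^ J), f x =
      f 0 + ∑ j ∈ Finset.range J, ∑ x ∈ Finset.Ico (4 ^ j) (4 * 4 ^ j), f x := by
  induction J with
  | zero => simp
  | succ J ih =>
    rw [Finset.sum_range_succ, ← add_assoc, ← ih, pow_succ, mul_comm (4 ^ J) 4,
      Finset.sum_range_add_sum_Ico _ (by omega)]

theorem mean {k : ℕ} (hk : 2 ≤ k) (hA : SW.S_A k) (hT : SW.S_TRIV k) : S_MEAN k := by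
  obtain ⟨C, hC, hA⟩ := hA
  have hs0 : 0 ≤ Real.sqrt C := Real.sqrt_nonneg C
  set D := 3 + 2 * Real.sqrt C with hD
  refine ⟨2 * D, by positivity, fun J τ hJ hτ => ?_⟩
  set X : ℝ := |τ| ^ (-(1 / (k : ℝ))) with hX
  have hX0 : 0 < X := Real.rpow_pos_of_pos (abs_pos.mpr hτ) _
  -- the one-sided sum
  set P : ℝ → ℂ := fun θ => ee (τ * θ ^ k) + ∑ j ∈ Finset.range J, SW.S k (4 ^ j) τ θ with hP
  have hSc : ∀ j, Continuous fun θ => SW.S k (4 ^ j) τ θ := fun j =>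
    (hT.2.2.1 (4 ^ j)).comp (Continuous.prodMk_right τ)
  have hPc : Continuous P := by
    refine Continuous.add (Mean.continuous_ee.comp (by fun_prop)) ?_
    exact continuous_finsetSum _ fun j _ => hSc j
  have hPeq : ∀ θ, P θ = ∑ x ∈ Finset.range (4 ^ J), ee (τ * ((x : ℝ) + θ) ^ k) := by
    intro θ
    rw [Mean.sum_pieces (fun x => ee (τ * ((x : ℝ) + θ) ^ k)) J]
    simp only [hP, Nat.cast_zero, zero_add, SW.S]
  have hTeq : ∀ θ ∈ Set.Icc (0 : ℝ) 1, T k (4 ^ J) τ θ = P θ + P (1 - θ) := by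
    intro θ hθ
    unfold T
    rw [Mean.sum_symm, hPeq, hPeq]
    congr 1
    · refine Finset.sum_congr rfl fun x _ => ?_
      rw [abs_of_nonneg]
      · push_cast; rfl
      · have : (0 : ℝ) ≤ ((x : ℤ) : ℝ) := by positivity
        linarith [hθ.1]
    · refine Finset.sum_congr rfl fun x _ => ?_
      have h1 : (((-(x : ℤ) - 1 : ℤ)) : ℝ) + θ = -((x : ℝ) + (1 - θ)) := by push_cast; ring
      rw [h1, abs_neg, abs_of_nonneg]
      have : (0 : ℝ) ≤ (x : ℝ) := by positivity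
      linarith [hθ.2]
  have hint : ∫ θ in (0 : ℝ)..1, ‖T k (4 ^ J) τ θ‖ ≤ 2 * ∫ θ in (0 : ℝ)..1, ‖P θ‖ := by
    have e1 : ∫ θ in (0 : ℝ)..1, ‖T k (4 ^ J) τ θ‖ = ∫ θ in (0 : ℝ)..1, ‖P θ + P (1 - θ)‖ := by
      apply intervalIntegral.integral_congr
      intro θ hθ
      rw [Set.uIcc_of_le zero_le_one] at hθ
      simp only [hTeq θ hθ]
    have hPc' : Continuous fun θ => P (1 - θ) := hPc.comp (by fun_prop)
    have e2 : ∫ θ in (0 : ℝ)..1, ‖P θ + P (1 - θ)‖ ≤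
        ∫ θ in (0 : ℝ)..1, (‖P θ‖ + ‖P (1 - θ)‖) := by
      apply intervalIntegral.integral_mono_on zero_le_one
        ((hPc.add hPc').norm.intervalIntegrable _ _)
        ((hPc.norm.add hPc'.norm).intervalIntegrable _ _)
      intro θ _
      exact norm_add_le _ _
    have e3 : ∫ θ in (0 : ℝ)..1, ‖P (1 - θ)‖ = ∫ θ in (0 : ℝ)..1, ‖P θ‖ := by
      rw [intervalIntegral.integral_comp_sub_left (fun θ => ‖P θ‖) 1]
      simp
    rw [intervalIntegral.integral_add (hPc.norm.intervalIntegrable _ _)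
      (hPc'.norm.intervalIntegrable _ _), e3] at e2
    linarith
  have hPint : ∫ θ in (0 : ℝ)..1, ‖P θ‖ ≤
      1 + ∑ j ∈ Finset.range J, ∫ θ in (0 : ℝ)..1, ‖SW.S k (4 ^ j) τ θ‖ := by
    have e1 : ∫ θ in (0 : ℝ)..1, ‖P θ‖ ≤
        ∫ θ in (0 : ℝ)..1, (1 + ∑ j ∈ Finset.range J, ‖SW.S k (4 ^ j) τ θ‖) := by
      apply intervalIntegral.integral_mono_on zero_le_one (hPc.norm.intervalIntegrable _ _)
      · exact (continuous_const.add
          (continuous_finsetSum _ fun j _ => (hSc j).norm)).intervalIntegrable _ _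
      · intro θ _
        simp only [hP]
        refine (norm_add_le _ _).trans ?_
        rw [Mean.norm_ee]
        gcongr
        exact norm_sum_le _ _
    rw [intervalIntegral.integral_add intervalIntegrable_const
      ((continuous_finsetSum _ fun j _ => (hSc j).norm).intervalIntegrable _ _),
      intervalIntegral.integral_finsetSum
        (fun j _ => (hSc j).norm.intervalIntegrable _ _)] at e1
    simpa using e1
  have hsum : ∑ j ∈ Finset.range J, ∫ θ in (0 : ℝ)..1, ‖SW.S k (4 ^ j) τ θ‖ ≤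
      D * ((2 : ℝ) ^ J - 1 + (J : ℝ) ^ 2 * X) := by
    calc ∑ j ∈ Finset.range J, ∫ θ in (0 : ℝ)..1, ‖SW.S k (4 ^ j) τ θ‖
        ≤ ∑ j ∈ Finset.range J, D * ((2 : ℝ) ^ j + J * X) := by
          refine Finset.sum_le_sum fun j hj => ?_
          refine (Mean.piece hk hC hA hT j hτ).trans ?_
          have hjJ : (j : ℝ) ≤ J := by
            exact_mod_cast (Finset.mem_range.mp hj).le
          have : (j : ℝ) * X ≤ J * X := mul_le_mul_of_nonneg_right hjJ hX0.le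
          exact mul_le_mul_of_nonneg_left (by linarith) (by positivity)
      _ = D * ((2 : ℝ) ^ J - 1 + (J : ℝ) ^ 2 * X) := by
          rw [← Finset.mul_sum, Finset.sum_add_distrib, Finset.sum_const, Finset.card_range,
            nsmul_eq_mul]
          have : ∑ j ∈ Finset.range J, (2 : ℝ) ^ j = 2 ^ J - 1 := by
            rw [geom_sum_eq (by norm_num)]; norm_num
          rw [this]; ring
  have hD1 : 1 ≤ D := by rw [hD]; linarith
  calc ∫ θ in (0 : ℝ)..1, ‖T k (4 ^ J) τ θ‖ ≤ 2 * ∫ θ in (0 : ℝ)..1, ‖P θ‖ := hint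
    _ ≤ 2 * (1 + D * ((2 : ℝ) ^ J - 1 + (J : ℝ) ^ 2 * X)) := by linarith
    _ ≤ 2 * D * ((2 : ℝ) ^ J + (J : ℝ) ^ 2 * X) := by linarith

end Pool.Agent.W5h6.MC
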