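import Pool.Agent.W5h6.MC.Defs
import Pool.Agent.W5h6.SW.PE

/-! The mass of `g`, and the Fourier integrals of the number and of the volume. -/

set_option autoImplicit false

open MeasureTheory
open scoped Real FourierTransform SchwartzMap ContDiff
open Pool.Agent.W5h6.SW (ee bump F g)
open Pool.Agent.W5h6.SW.PE

namespace Pool.Agent.W5h6.MC

theorem gl1 : S_GL1 := by
  obtain ⟨hg, ⟨c, hc, hgc⟩, -⟩ := Pool.Agent.W5h6.SW.inv
  obtain ⟨I, hI⟩ : ∃ I, I = ∫ τ, ‖F τ‖ := ⟨_, rfl⟩
  have hI0 : 0 ≤ I := by rw [hI]; exact integral_nonneg fun _ => by positivity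
  refine ⟨c + I, by positivity, fun η hη => ⟨(hg η hη).1, (hg η hη).2, fun τ => ?_, ?_⟩⟩
  · refine ((hgc η hη).1 τ).trans ?_
    exact mul_le_mul_of_nonneg_right (by linarith) hη.le
  · have e : (fun τ => ‖g η τ‖) = fun τ => (fun ξ => η * ‖F ξ‖) (η * τ) := by
      funext τ
      unfold g
      simp only
      rw [norm_mul, Complex.norm_real, Real.norm_of_nonneg hη.le]
    rw [e, Measure.integral_comp_mul_left (fun ξ => η * ‖F ξ‖) η,
      integral_const_mul, ← hI, smul_eq_mul, abs_of_pos (inv_pos.2 hη)]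
    have h2 : η⁻¹ * (η * I) = I := by field_simp
    rw [h2]
    linarith

theorem rep {k d : ℕ} : S_REP k d := by
  obtain ⟨hg, -, hinv⟩ := Pool.Agent.W5h6.SW.inv
  refine ⟨fun N η t θ hη => ?_, fun N η t hη => ?_⟩
  · have hint : ∀ c : ℝ, Integrable fun τ => g η τ * ee (τ * c) := by
      intro c
      refine (hg η hη).2.mul_bdd (c := 1) ?_ ?_
      · exact (ee_cont.comp (continuous_id.mul continuous_const)).aestronglyMeasurable
      · filter_upwards with τ
        rw [norm_ee]
    have e : ∀ τ : ℝ, g η τ * ee (-(τ * t)) * ∏ i, T k N τ (θ i) =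
        ∑ m ∈ Fintype.piFinset (fun _ : Fin d => Finset.Ico (-(N : ℤ)) N),
          g η τ * ee (τ * (∑ i, |(m i : ℝ) + θ i| ^ k - t)) := by
      intro τ
      unfold T
      rw [Finset.prod_univ_sum, Finset.mul_sum]
      refine Finset.sum_congr rfl fun m _ => ?_
      rw [← ee_sum, mul_assoc, ← ee_add]
      congr 2
      rw [← Finset.mul_sum]
      ring
    simp_rw [e]
    rw [integral_finsetSum _ fun m _ => hint _]
    unfold cnt
    push_cast
    refine Finset.sum_congr rfl fun m _ => ?_
    rw [← hinv η _ hη]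
  · -- the box
    obtain ⟨ν, hν⟩ : ∃ ν : Measure ℝ, ν = volume.restrict (Set.Icc (-(N : ℝ)) (N : ℝ)) :=
      ⟨_, rfl⟩
    have hνf : IsFiniteMeasure ν := by rw [hν]; infer_instance
    have hbox : (volume.restrict (Set.Icc (fun _ : Fin d => -(N : ℝ)) (fun _ => (N : ℝ)))) =
        Measure.pi (fun _ : Fin d => ν) := by
      rw [hν, ← Set.pi_univ_Icc]
      exact Measure.restrict_pi_pi (fun _ : Fin d => (volume : Measure ℝ)) _
    unfold mu
    rw [hbox]
    have hJ : ∀ τ : ℝ, K k N τ ^ d = ∫ y : Fin d → ℝ, ∏ i, ee (τ * |y i| ^ k)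
        ∂(Measure.pi (fun _ : Fin d => ν)) := by
      intro τ
      rw [integral_fintype_prod_eq_pow (fun y : ℝ => ee (τ * |y| ^ k)), Fintype.card_fin]
      congr 1
      unfold K
      rw [intervalIntegral.integral_of_le (by
        have : (0 : ℝ) ≤ N := by positivity
        linarith), hν, integral_Icc_eq_integral_Ioc]
    rw [← integral_complex_ofReal]
    simp_rw [hinv η _ hη]
    rw [integral_integral_swap]
    · congr 1
      funext τ
      rw [hJ, ← integral_const_mul]
      congr 1
      funext y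
      rw [← ee_sum, mul_assoc, ← ee_add]
      congr 2
      rw [← Finset.mul_sum]
      ring
    · have h1 : Integrable (fun p : (Fin d → ℝ) × ℝ => g η p.2)
          ((Measure.pi (fun _ : Fin d => ν)).prod volume) := (hg η hη).2.comp_snd _
      refine h1.mul_bdd (c := 1) ?_ ?_
      · apply Continuous.aestronglyMeasurable
        apply ee_cont.comp
        fun_prop
      · filter_upwards with p
        rw [norm_ee]

end Pool.Agent.W5h6.MC
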