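import Pool.Agent.W5h6.MC.Defs

/-! (f) from smooth to sharp windows -/

set_option autoImplicit false

open MeasureTheory
open scoped Real
open Pool.Agent.W5h6.SW (ee bump F g)

namespace Pool.Agent.W5h6.MC

namespace Sm

/-- the mass of the bump -/
noncomputable def I0 : ℝ := ∫ u : ℝ, bump u

theorem bump_zero {u : ℝ} (h : 1 ≤ |u|) : bump u = 0 := by
  refine bump.zero_of_le_dist ?_
  rw [Real.dist_eq, sub_zero]
  exact h

theorem one_le_I0 : 1 ≤ I0 := by
  have h1 : ∫ u in Set.Icc (-(1 / 2) : ℝ) (1 / 2), (bump u : ℝ) = 1 := by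
    have h2 : ∫ u in Set.Icc (-(1 / 2) : ℝ) (1 / 2), (bump u : ℝ) =
        ∫ u in Set.Icc (-(1 / 2) : ℝ) (1 / 2), (1 : ℝ) := by
      refine setIntegral_congr_fun measurableSet_Icc fun u hu => ?_
      refine bump.one_of_mem_closedBall ?_
      rw [Metric.mem_closedBall, Real.dist_eq, sub_zero, abs_le]
      exact hu
    rw [h2, setIntegral_const, smul_eq_mul, mul_one, Real.volume_real_Icc_of_le (by norm_num)]
    norm_num
  rw [← h1]
  exact setIntegral_le_integral bump.integrable (Filter.Eventually.of_forall fun _ => bump.nonneg)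

theorem full {η : ℝ} (hη : 0 < η) (p : ℝ) : ∫ t' : ℝ, (bump ((p - t') / η) : ℝ) = η * I0 := by
  have h1 : ∫ t' : ℝ, (bump ((p - t') / η) : ℝ) = ∫ x : ℝ, (bump (x / η) : ℝ) :=
    integral_sub_left_eq_self (fun x => (bump (x / η) : ℝ)) volume p
  rw [h1, Measure.integral_comp_div (fun x => (bump x : ℝ)) η, abs_of_pos hη, smul_eq_mul]
  rfl

theorem full_int {η : ℝ} (hη : 0 < η) (p : ℝ) : Integrable (fun t' : ℝ => (bump ((p - t') / η) : ℝ)) := by
  have h : Integrable (fun x : ℝ => (bump (x / η) : ℝ)) := bump.integrable.comp_div hη.ne'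
  exact h.comp_sub_left p

/-- the mass of the window -/
noncomputable def B (η t W p : ℝ) : ℝ := ∫ t' in Set.Icc (t - W) (t + W), (bump ((p - t') / η) : ℝ)

theorem B_nonneg (η t W p : ℝ) : 0 ≤ B η t W p :=
  integral_nonneg fun _ => bump.nonneg

theorem B_le {η : ℝ} (hη : 0 < η) (t W p : ℝ) : B η t W p ≤ η * I0 := by
  rw [← full hη p]
  exact setIntegral_le_integral (full_int hη p) (Filter.Eventually.of_forall fun _ => bump.nonneg)

theorem B_eq {η : ℝ} (hη : 0 < η) {t W p : ℝ} (h : |p - t| + η ≤ W) : B η t W p = η * I0 := by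
  rw [← full hη p]
  refine setIntegral_eq_integral_of_forall_compl_eq_zero fun x hx => bump_zero ?_
  rw [abs_div, abs_of_pos hη, le_div_iff₀ hη, one_mul]
  by_contra h1
  rw [not_le, abs_lt] at h1
  apply hx
  have h2 := abs_le.1 (le_sub_iff_add_le.2 h)
  constructor <;> linarith [h1.1, h1.2, h2.1, h2.2]

theorem B_zero {η : ℝ} (hη : 0 < η) {t W p : ℝ} (h : W + η ≤ |p - t|) : B η t W p = 0 := by
  unfold B
  refine setIntegral_eq_zero_of_forall_eq_zero fun x hx => bump_zero ?_
  rw [abs_div, abs_of_pos hη, le_div_iff₀ hη, one_mul]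
  by_contra h1
  rw [not_le, abs_lt] at h1
  have h2 : |p - t| < W + η := by
    rw [abs_lt]
    constructor <;> linarith [h1.1, h1.2, hx.1, hx.2]
  linarith

/-- the integral of the weighted number -/
theorem cnt_int (k d N : ℕ) {η : ℝ} (hη : 0 < η) (t W : ℝ) (θ : Fin d → ℝ) :
    IntegrableOn (fun t' => cnt k d N η t' θ) (Set.Icc (t - W) (t + W)) ∧
    ∫ t' in Set.Icc (t - W) (t + W), cnt k d N η t' θ =
      ∑ m ∈ Fintype.piFinset (fun _ : Fin d => Finset.Ico (-(N : ℤ)) N),
        B η t W (∑ i, |(m i : ℝ) + θ i| ^ k) := by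
  constructor
  · unfold cnt
    exact integrable_finsetSum _ fun m _ => (full_int hη _).integrableOn
  · unfold cnt B
    rw [integral_finsetSum]
    intro m _
    exact (full_int hη _).integrableOn

theorem box_fin (d N : ℕ) : IsFiniteMeasure
    ((volume : Measure (Fin d → ℝ)).restrict
      (Set.Icc (fun _ : Fin d => -(N : ℝ)) (fun _ => (N : ℝ)))) :=
  ⟨by
    rw [Measure.restrict_apply_univ]
    exact isCompact_Icc.measure_lt_top⟩

theorem prod_int (k d N : ℕ) (η t W : ℝ) :
    Integrable (Function.uncurry fun (t' : ℝ) (y : Fin d → ℝ) =>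
      (bump ((∑ i, |y i| ^ k - t') / η) : ℝ))
      ((volume.restrict (Set.Icc (t - W) (t + W))).prod
        (volume.restrict (Set.Icc (fun _ : Fin d => -(N : ℝ)) (fun _ => (N : ℝ))))) := by
  have := box_fin d N
  refine Integrable.of_bound (C := 1) ?_ ?_
  · refine Continuous.aestronglyMeasurable ?_
    refine bump.continuous.comp ?_
    fun_prop
  · refine Filter.Eventually.of_forall fun x => ?_
    rw [Real.norm_eq_abs]
    change |(bump _ : ℝ)| ≤ 1
    rw [abs_of_nonneg bump.nonneg]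
    exact bump.le_one

/-- the integral of the weighted volume -/
theorem mu_int (k d N : ℕ) (η t W : ℝ) :
    IntegrableOn (fun t' => mu k d N η t') (Set.Icc (t - W) (t + W)) ∧
    IntegrableOn (fun y : Fin d → ℝ => B η t W (∑ i, |y i| ^ k))
      (Set.Icc (fun _ : Fin d => -(N : ℝ)) (fun _ => (N : ℝ))) ∧
    ∫ t' in Set.Icc (t - W) (t + W), mu k d N η t' =
      ∫ y in Set.Icc (fun _ : Fin d => -(N : ℝ)) (fun _ => (N : ℝ)), B η t W (∑ i, |y i| ^ k) :=
  ⟨(prod_int k d N η t W).integral_prod_left, (prod_int k d N η t W).integral_prod_right,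
    integral_integral_swap (prod_int k d N η t W)⟩

theorem meas (k d : ℕ) (t w : ℝ) : MeasurableSet {y : Fin d → ℝ | |∑ i, |y i| ^ k - t| ≤ w} := by
  refine IsClosed.measurableSet (isClosed_le ?_ continuous_const)
  fun_prop

theorem vl_up (k d N : ℕ) {η : ℝ} (hη : 0 < η) (t W : ℝ) :
    ∫ y in Set.Icc (fun _ : Fin d => -(N : ℝ)) (fun _ => (N : ℝ)), B η t W (∑ i, |y i| ^ k) ≤
      η * I0 * Vl k d N t (W + η) := by
  have := box_fin d N
  have h1 : ∫ y in Set.Icc (fun _ : Fin d => -(N : ℝ)) (fun _ => (N : ℝ)), B η t W (∑ i, |y i| ^ k) ≤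
      ∫ y in Set.Icc (fun _ : Fin d => -(N : ℝ)) (fun _ => (N : ℝ)),
        Set.indicator {y : Fin d → ℝ | |∑ i, |y i| ^ k - t| ≤ W + η} (fun _ => η * I0) y := by
    refine integral_mono (mu_int k d N η t W).2.1 ?_ fun y => ?_
    · exact (integrable_const _).indicator (meas k d t _)
    · by_cases hy : y ∈ {y : Fin d → ℝ | |∑ i, |y i| ^ k - t| ≤ W + η}
      · rw [Set.indicator_of_mem hy]
        exact B_le hη _ _ _
      · rw [Set.indicator_of_notMem hy]
        exact (B_zero hη (not_le.1 hy).le).le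
  refine h1.trans (le_of_eq ?_)
  rw [setIntegral_indicator (meas k d t _), setIntegral_const, smul_eq_mul, mul_comm]
  rfl

theorem vl_low (k d N : ℕ) {η : ℝ} (hη : 0 < η) (t W : ℝ) :
    η * I0 * Vl k d N t (W - η) ≤
    ∫ y in Set.Icc (fun _ : Fin d => -(N : ℝ)) (fun _ => (N : ℝ)), B η t W (∑ i, |y i| ^ k) := by
  have := box_fin d N
  have h1 : ∫ y in Set.Icc (fun _ : Fin d => -(N : ℝ)) (fun _ => (N : ℝ)),
        Set.indicator {y : Fin d → ℝ | |∑ i, |y i| ^ k - t| ≤ W - η} (fun _ => η * I0) y ≤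
      ∫ y in Set.Icc (fun _ : Fin d => -(N : ℝ)) (fun _ => (N : ℝ)), B η t W (∑ i, |y i| ^ k) := by
    refine integral_mono ?_ (mu_int k d N η t W).2.1 fun y => ?_
    · exact (integrable_const _).indicator (meas k d t _)
    · by_cases hy : y ∈ {y : Fin d → ℝ | |∑ i, |y i| ^ k - t| ≤ W - η}
      · rw [Set.indicator_of_mem hy]
        refine (B_eq hη ?_).ge
        have h2 : |∑ i, |y i| ^ k - t| ≤ W - η := hy
        linarith
      · rw [Set.indicator_of_notMem hy]
        exact B_nonneg _ _ _ _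
  refine (le_of_eq ?_).trans h1
  rw [setIntegral_indicator (meas k d t _), setIntegral_const, smul_eq_mul, mul_comm]
  rfl

theorem cn_low (k d N : ℕ) {η : ℝ} (hη : 0 < η) (t W : ℝ) (θ : Fin d → ℝ) :
    η * I0 * Cn k d N t (W - η) θ ≤
      ∑ m ∈ Fintype.piFinset (fun _ : Fin d => Finset.Ico (-(N : ℤ)) N),
        B η t W (∑ i, |(m i : ℝ) + θ i| ^ k) := by
  classical
  have h1 : η * I0 * Cn k d N t (W - η) θ =
      ∑ m ∈ (Fintype.piFinset (fun _ : Fin d => Finset.Ico (-(N : ℤ)) N)).filter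
        (fun m => |∑ i, |(m i : ℝ) + θ i| ^ k - t| ≤ W - η), η * I0 := by
    rw [Finset.sum_const, nsmul_eq_mul, mul_comm]
    unfold Cn
    congr 3
  rw [h1]
  refine (Finset.sum_le_sum fun m hm => ?_).trans
    (Finset.sum_le_sum_of_subset_of_nonneg (Finset.filter_subset _ _) fun m _ _ => B_nonneg _ _ _ _)
  rw [Finset.mem_filter] at hm
  refine (B_eq hη ?_).ge
  linarith [hm.2]

theorem cn_up (k d N : ℕ) {η : ℝ} (hη : 0 < η) (t W : ℝ) (θ : Fin d → ℝ) :
      ∑ m ∈ Fintype.piFinset (fun _ : Fin d => Finset.Ico (-(N : ℤ)) N),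
        B η t W (∑ i, |(m i : ℝ) + θ i| ^ k) ≤ η * I0 * Cn k d N t (W + η) θ := by
  classical
  have h1 : η * I0 * Cn k d N t (W + η) θ =
      ∑ m ∈ (Fintype.piFinset (fun _ : Fin d => Finset.Ico (-(N : ℤ)) N)).filter
        (fun m => |∑ i, |(m i : ℝ) + θ i| ^ k - t| ≤ W + η), η * I0 := by
    rw [Finset.sum_const, nsmul_eq_mul, mul_comm]
    unfold Cn
    congr 3
  rw [h1, Finset.sum_filter]
  refine Finset.sum_le_sum fun m _ => ?_
  split_ifs with h
  · exact B_le hη _ _ _
  · exact (B_zero hη (not_le.1 h).le).le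

end Sm

open Sm

/-- (f) -/
theorem smooth {k d : ℕ} : S_SMOOTH k d := by
  intro N η t w e θ hη hw he h
  have hI := one_le_I0
  have hηI : 0 < η * I0 := mul_pos hη (by linarith)
  have key : ∀ W : ℝ, 0 ≤ W →
      |(∫ t' in Set.Icc (t - W) (t + W), cnt k d N η t' θ) -
        ∫ t' in Set.Icc (t - W) (t + W), mu k d N η t'| ≤ 2 * W * e := by
    intro W hW
    rw [← integral_sub (cnt_int k d N hη t W θ).1 (mu_int k d N η t W).1]
    have h1 := norm_setIntegral_le_of_norm_le_const (μ := volume) (s := Set.Icc (t - W) (t + W))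
      (f := fun t' => cnt k d N η t' θ - mu k d N η t') (C := e) (by
        rw [Real.volume_Icc]; exact ENNReal.ofReal_lt_top)
      (fun t' _ => by rw [Real.norm_eq_abs]; exact h t')
    rw [Real.norm_eq_abs, Real.volume_real_Icc_of_le (by linarith)] at h1
    refine h1.trans (le_of_eq ?_)
    ring
  have hdiv : ∀ x : ℝ, 0 ≤ x → x / (η * I0) ≤ x / η := by
    intro x hx
    refine div_le_div_of_nonneg_left hx hη ?_
    exact le_mul_of_one_le_right hη.le hI
  constructor
  · have h1 := key (w + η) (by linarith)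
    rw [(cnt_int k d N hη t (w + η) θ).2, (mu_int k d N η t (w + η)).2.2] at h1
    have h2 := cn_low k d N hη t (w + η) θ
    have h3 := vl_up k d N hη t (w + η)
    rw [add_sub_cancel_right] at h2
    have h4 := (abs_le.1 h1).2
    have h5 : η * I0 * Cn k d N t w θ ≤ η * I0 * Vl k d N t (w + η + η) + 2 * (w + η) * e := by
      linarith
    have h6 : Cn k d N t w θ ≤ Vl k d N t (w + η + η) + 2 * (w + η) * e / (η * I0) := by
      rw [← mul_le_mul_iff_right₀ hηI, mul_add, mul_div_cancel₀ _ hηI.ne']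
      exact h5
    have h7 := hdiv (2 * (w + η) * e) (mul_nonneg (by linarith) he)
    have h8 : 2 * (w + η) * e / η = 2 * (w + η) / η * e := by ring
    have h9 : w + η + η = w + 2 * η := by ring
    rw [h9] at h6
    linarith
  · have h1 := key (w - η) (by linarith)
    rw [(cnt_int k d N hη t (w - η) θ).2, (mu_int k d N η t (w - η)).2.2] at h1
    have h2 := cn_up k d N hη t (w - η) θ
    have h3 := vl_low k d N hη t (w - η)
    rw [sub_add_cancel] at h2
    have h4 := (abs_le.1 h1).1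
    have h5 : η * I0 * Vl k d N t (w - η - η) - 2 * (w - η) * e ≤ η * I0 * Cn k d N t w θ := by
      linarith
    have h6 : Vl k d N t (w - η - η) - 2 * (w - η) * e / (η * I0) ≤ Cn k d N t w θ := by
      rw [← mul_le_mul_iff_right₀ hηI, mul_sub, mul_div_cancel₀ _ hηI.ne']
      exact h5
    have h7 := hdiv (2 * (w - η) * e) (mul_nonneg (by linarith) he)
    have h8 : 2 * (w - η) * e / η ≤ 2 * w / η * e := by
      have : 2 * w / η * e = 2 * w * e / η := by ring
      rw [this]
      refine div_le_div_of_nonneg_right ?_ hη.le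
      nlinarith
    have h9 : w - η - η = w - 2 * η := by ring
    rw [h9] at h6
    linarith

end Pool.Agent.W5h6.MC
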