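import Pool.Agent.W5h6.MC.Defs
import Pool.Agent.W5h6.SW.PB

/-! (b): the trivial bounds for `T` and `K` and the difference `T - K`. -/

set_option autoImplicit false

open MeasureTheory
open scoped Real
open Pool.Agent.W5h6.SW (ee pb_norm_ee pb_continuous_ee pb_ee_sub)

namespace Pool.Agent.W5h6.MC

lemma tb_card (N : ℕ) : (((Finset.Ico (-(N : ℤ)) N).card : ℕ) : ℝ) = 2 * N := by
  rw [Int.card_Ico]
  have : ((N : ℤ) - -(N : ℤ)).toNat = 2 * N := by omega
  rw [this]
  push_cast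
  rfl

lemma tb_norm_T_le (k N : ℕ) (τ θ : ℝ) : ‖T k N τ θ‖ ≤ 2 * N := by
  rw [T]
  refine (norm_sum_le _ _).trans ?_
  simp only [pb_norm_ee, Finset.sum_const, nsmul_eq_mul, mul_one]
  rw [tb_card]

lemma tb_continuous_T (k N : ℕ) : Continuous fun p : ℝ × ℝ => T k N p.1 p.2 := by
  unfold T
  exact continuous_finsetSum _ fun x _ => pb_continuous_ee.comp (by fun_prop)

lemma tb_adj {f : ℝ → ℂ} (hf : Continuous f) (a : ℤ) (n : ℕ) :
    ∑ m ∈ Finset.Ico a (a + n), ∫ y in (m : ℝ)..((m : ℝ) + 1), f y =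
      ∫ y in (a : ℝ)..((a : ℝ) + n), f y := by
  induction n with
  | zero => simp
  | succ n ih =>
    have h : Finset.Ico a (a + ((n + 1 : ℕ) : ℤ)) = insert (a + (n : ℤ)) (Finset.Ico a (a + n)) := by
      ext m
      simp only [Finset.mem_Ico, Finset.mem_insert]
      push_cast
      omega
    rw [h, Finset.sum_insert (by simp), ih, add_comm]
    push_cast
    rw [← add_assoc]
    exact intervalIntegral.integral_add_adjacent_intervals (hf.intervalIntegrable _ _)
      (hf.intervalIntegrable _ _)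

lemma tb_continuous_e (k : ℕ) (τ : ℝ) : Continuous fun y : ℝ => ee (τ * |y| ^ k) :=
  pb_continuous_ee.comp (by fun_prop)

lemma tb_K_eq (k N : ℕ) (τ : ℝ) :
    K k N τ = ∑ m ∈ Finset.Ico (-(N : ℤ)) N, ∫ y in (m : ℝ)..((m : ℝ) + 1), ee (τ * |y| ^ k) := by
  have h := tb_adj (tb_continuous_e k τ) (-(N : ℤ)) (2 * N)
  rw [show (-(N : ℤ)) + ((2 * N : ℕ) : ℤ) = N by push_cast; ring] at h
  rw [h, K]
  push_cast
  congr 1
  ring

lemma tb_K_eq_T (k N : ℕ) (τ : ℝ) : K k N τ = ∫ θ in (0 : ℝ)..1, T k N τ θ := by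
  rw [tb_K_eq]
  unfold T
  rw [intervalIntegral.integral_finsetSum]
  · apply Finset.sum_congr rfl
    intro x _
    have := intervalIntegral.integral_comp_add_left (a := (0 : ℝ)) (b := 1)
      (fun y : ℝ => ee (τ * |y| ^ k)) (x : ℝ)
    rw [this]
    simp
  · intro x _
    exact (pb_continuous_ee.comp (by fun_prop)).intervalIntegrable _ _

lemma tb_pow {u v M : ℝ} {k : ℕ} (hu : 0 ≤ u) (hu1 : u ≤ M) (hv : 0 ≤ v) (hv1 : v ≤ M)
    (h : |u - v| ≤ 1) : |u ^ k - v ^ k| ≤ k * M ^ (k - 1) := by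
  have h3 := abs_pow_sub_pow_le u v k
  have h5 : max |u| |v| ≤ M := by
    rw [abs_of_nonneg hu, abs_of_nonneg hv]
    exact max_le hu1 hv1
  calc |u ^ k - v ^ k| ≤ |u - v| * k * (max |u| |v|) ^ (k - 1) := h3
    _ ≤ 1 * k * M ^ (k - 1) := by gcongr
    _ = _ := by ring

/-- (b1) -/
theorem trivt {k : ℕ} (_hk : 1 ≤ k) : S_TRIVT k := by
  refine ⟨tb_norm_T_le k, fun N τ => ?_, tb_continuous_T k, fun N => ?_, fun N τ => ?_⟩
  · have h : ‖K k N τ‖ ≤ 1 * |(N : ℝ) - -(N : ℝ)| := by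
      rw [K]
      apply intervalIntegral.norm_integral_le_of_norm_le_const
      intro y _
      rw [pb_norm_ee]
    rw [abs_of_nonneg (by have : (0 : ℝ) ≤ N := by positivity
                          linarith)] at h
    linarith
  · unfold K
    apply intervalIntegral.continuous_parametric_intervalIntegral_of_continuous'
    exact pb_continuous_ee.comp (by fun_prop)
  · rw [tb_K_eq_T]
    exact intervalIntegral.norm_integral_le_integral_norm zero_le_one

/-- (b2) -/
theorem lowt {k : ℕ} (hk : 1 ≤ k) : S_LOWT k := by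
  have hk0 : (0 : ℝ) < k := by exact_mod_cast hk
  refine ⟨4 * π * k, by positivity, fun N τ θ hN hθ => ?_⟩
  have hN0 : (0 : ℝ) < N := by exact_mod_cast hN
  have hterm : ∀ m ∈ Finset.Ico (-(N : ℤ)) N,
      ‖ee (τ * |(m : ℝ) + θ| ^ k) - ∫ y in (m : ℝ)..((m : ℝ) + 1), ee (τ * |y| ^ k)‖ ≤
        2 * π * (|τ| * (k * (N : ℝ) ^ (k - 1))) := by
    intro m hm
    rw [Finset.mem_Ico] at hm
    have hm1 : (m : ℝ) + 1 ≤ N := by exact_mod_cast hm.2
    have hm0 : -(N : ℝ) ≤ m := by exact_mod_cast hm.1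
    have e1 : ee (τ * |(m : ℝ) + θ| ^ k) =
        ∫ y in (m : ℝ)..((m : ℝ) + 1), ee (τ * |(m : ℝ) + θ| ^ k) := by
      rw [intervalIntegral.integral_const]
      simp
    rw [e1, ← intervalIntegral.integral_sub (intervalIntegrable_const)
      ((tb_continuous_e k τ).intervalIntegrable _ _)]
    have h1 : ‖∫ y in (m : ℝ)..((m : ℝ) + 1), (ee (τ * |(m : ℝ) + θ| ^ k) - ee (τ * |y| ^ k))‖ ≤
        2 * π * (|τ| * (k * (N : ℝ) ^ (k - 1))) * |((m : ℝ) + 1) - m| := by
      apply intervalIntegral.norm_integral_le_of_norm_le_const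
      intro y hy
      rw [Set.uIoc_of_le (by linarith)] at hy
      refine (pb_ee_sub _ _).trans ?_
      have h2 : |(|(m : ℝ) + θ|) ^ k - |y| ^ k| ≤ k * (N : ℝ) ^ (k - 1) := by
        apply tb_pow (abs_nonneg _) _ (abs_nonneg _)
        · rw [abs_le]
          constructor <;> linarith [hy.1, hy.2]
        · refine (abs_abs_sub_abs_le_abs_sub _ _).trans ?_
          rw [abs_le]
          constructor <;> linarith [hy.1, hy.2, hθ.1, hθ.2]
        · rw [abs_le]
          constructor <;> linarith [hθ.1, hθ.2]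
      rw [← mul_sub, abs_mul]
      gcongr
    have h6 : |((m : ℝ) + 1) - m| = 1 := by
      simp
    rwa [h6, mul_one] at h1
  rw [T, tb_K_eq, ← Finset.sum_sub_distrib]
  refine (norm_sum_le _ _).trans ((Finset.sum_le_sum hterm).trans ?_)
  rw [Finset.sum_const, nsmul_eq_mul, tb_card]
  obtain ⟨n, rfl⟩ : ∃ n, k = n + 1 := ⟨k - 1, by omega⟩
  rw [Nat.add_sub_cancel, pow_succ (N : ℝ) n]
  apply le_of_eq
  ring

end Pool.Agent.W5h6.MC
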