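import Pool.Agent.W5h6.MC.Defs

/-! Lattice points near `k`-spheres with almost all centres: the volume of the shell
(MP_927be3_nt). -/

set_option autoImplicit false

open MeasureTheory
open scoped Real FourierTransform

namespace Pool.Agent.W5h6.MC

/-- (v) the volume of the shell -/
theorem vol {k d : ℕ} (hk : 1 ≤ k) (hd : 1 ≤ d) : S_VOL k d := by
  intro N t w hw hwt htw
  have : Nonempty (Fin d) := ⟨⟨0, hd⟩⟩
  have hkr : (1 : ℝ) ≤ k := by exact_mod_cast hk
  have hk0 : (0 : ℝ) < k := by linarith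
  set c : ℝ := (2 * Real.Gamma (1 / (k : ℝ) + 1)) ^ d / Real.Gamma ((d : ℝ) / k + 1) with hc
  have hG1 : 0 < Real.Gamma (1 / (k : ℝ) + 1) := Real.Gamma_pos_of_pos (by positivity)
  have hG2 : 0 < Real.Gamma ((d : ℝ) / k + 1) := Real.Gamma_pos_of_pos (by positivity)
  have hc0 : 0 ≤ c := by positivity
  have hpow : ∀ s : ℝ, 0 ≤ s → (s ^ (1 / (k : ℝ))) ^ d = s ^ ((d : ℝ) / k) := by
    intro s hs
    rw [← Real.rpow_natCast, ← Real.rpow_mul hs]
    congr 1
    ring
  have hval : ∀ s : ℝ, 0 ≤ s → ENNReal.ofReal (s ^ (1 / (k : ℝ))) ^ Fintype.card (Fin d) *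
      ENNReal.ofReal ((2 * Real.Gamma (1 / (k : ℝ) + 1)) ^ Fintype.card (Fin d) /
        Real.Gamma (Fintype.card (Fin d) / (k : ℝ) + 1)) =
      ENNReal.ofReal (c * s ^ ((d : ℝ) / k)) := by
    intro s hs
    rw [Fintype.card_fin, ← ENNReal.ofReal_pow (by positivity), hpow s hs,
      ← ENNReal.ofReal_mul (by positivity), mul_comm]
  have key1 : ∀ s : ℝ, 0 ≤ s → volume {y : Fin d → ℝ | ∑ i, |y i| ^ k ≤ s} =
      ENNReal.ofReal (c * s ^ ((d : ℝ) / k)) := by
    intro s hs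
    have h := MeasureTheory.volume_sum_rpow_le (Fin d) hkr (s ^ (1 / (k : ℝ)))
    have e : {y : Fin d → ℝ | ∑ i, |y i| ^ k ≤ s} =
        {x : Fin d → ℝ | (∑ i, |x i| ^ (k : ℝ)) ^ (1 / (k : ℝ)) ≤ s ^ (1 / (k : ℝ))} := by
      ext y
      simp only [Set.mem_ofPred_eq, Real.rpow_natCast]
      rw [Real.rpow_le_rpow_iff (Finset.sum_nonneg fun i _ => by positivity) hs (by positivity)]
    rw [e, h, hval s hs]
  have key2 : ∀ s : ℝ, 0 ≤ s → volume {y : Fin d → ℝ | ∑ i, |y i| ^ k < s} =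
      ENNReal.ofReal (c * s ^ ((d : ℝ) / k)) := by
    intro s hs
    have h := MeasureTheory.volume_sum_rpow_lt (Fin d) hkr (s ^ (1 / (k : ℝ)))
    have e : {y : Fin d → ℝ | ∑ i, |y i| ^ k < s} =
        {x : Fin d → ℝ | (∑ i, |x i| ^ (k : ℝ)) ^ (1 / (k : ℝ)) < s ^ (1 / (k : ℝ))} := by
      ext y
      simp only [Set.mem_ofPred_eq, Real.rpow_natCast]
      rw [Real.rpow_lt_rpow_iff (Finset.sum_nonneg fun i _ => by positivity) hs (by positivity)]
    rw [e, h, hval s hs]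
  have hset : (Set.Icc (fun _ : Fin d => -(N : ℝ)) (fun _ => (N : ℝ)) ∩
      {y | |∑ i, |y i| ^ k - t| ≤ w}) =
      {y : Fin d → ℝ | ∑ i, |y i| ^ k ≤ t + w} \ {y : Fin d → ℝ | ∑ i, |y i| ^ k < t - w} := by
    ext y
    simp only [Set.mem_inter_iff, Set.mem_ofPred_eq, Set.mem_sdiff, not_lt, abs_le]
    constructor
    · rintro ⟨-, h1, h2⟩
      constructor <;> linarith
    · rintro ⟨h1, h2⟩
      refine ⟨?_, by linarith, by linarith⟩
      have h3 : ∀ i, |y i| ≤ N := by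
        intro i
        have h4 : |y i| ^ k ≤ (N : ℝ) ^ k :=
          (Finset.single_le_sum (f := fun i => |y i| ^ k) (fun j _ => by positivity)
            (Finset.mem_univ i)).trans (h1.trans htw)
        exact le_of_pow_le_pow_left₀ (by omega) (by positivity) h4
      exact ⟨fun i => (abs_le.mp (h3 i)).1, fun i => (abs_le.mp (h3 i)).2⟩
  have hm : MeasurableSet {y : Fin d → ℝ | ∑ i, |y i| ^ k < t - w} :=
    measurableSet_lt (by fun_prop) (by fun_prop)
  have hsub : {y : Fin d → ℝ | ∑ i, |y i| ^ k < t - w} ⊆ {y : Fin d → ℝ | ∑ i, |y i| ^ k ≤ t + w} :=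
    fun y hy => by
      simp only [Set.mem_ofPred_eq] at hy ⊢
      linarith
  unfold Vl
  rw [hset, measureReal_def, measure_sdiff hsub hm.nullMeasurableSet
    (by rw [key2 _ (by linarith)]; exact ENNReal.ofReal_ne_top), key1 _ (by linarith),
    key2 _ (by linarith), ← ENNReal.ofReal_sub _ (by
      have : 0 ≤ (t - w) ^ ((d : ℝ) / k) := Real.rpow_nonneg (by linarith) _
      positivity), ENNReal.toReal_ofReal, mul_sub]
  have : (t - w) ^ ((d : ℝ) / k) ≤ (t + w) ^ ((d : ℝ) / k) :=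
    Real.rpow_le_rpow (by linarith) (by linarith) (by positivity)
  have := mul_le_mul_of_nonneg_left this hc0
  linarith

end Pool.Agent.W5h6.MC
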