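import Pool.Agent.W5h6.SW.PA
import Pool.Agent.W5h6.SW.PB
import Pool.Agent.W5h6.MC.Mean
import Pool.Agent.W5h6.MC.Triv
import Pool.Agent.W5h6.MC.Low2
import Pool.Agent.W5h6.MC.High2
import Pool.Agent.W5h6.MC.Rep
import Pool.Agent.W5h6.MC.AE2
import Pool.Agent.W5h6.MC.Smooth
import Pool.Agent.W5h6.MC.Vol
import Pool.Agent.W5h6.MC.Cube2
import Pool.Agent.W5h6.MC.All2

/-! Lattice points near `k`-spheres with almost all centres: the main theorem, all `d ≥ k+1`. -/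

set_option autoImplicit false

open MeasureTheory Set Filter

namespace Pool.Agent.W5h6.MC

theorem main2 {k d : ℕ} (hk : 2 ≤ k) (hd : k + 1 ≤ d) : S_ALL2 k d := by
  have hA := SW.a_le (k := k) hk
  have hTs := SW.triv k
  have hM : S_MEAN k := mean hk hA hTs
  have hT : S_TRIVT k := trivt (by omega)
  have hLT : S_LOWT k := lowt (by omega)
  have hL : S_LOW2 k d := low2 hk hd hM hT hLT
  have hH : S_HIGH2 k d := high2 hk hd hM hT gl1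
  have hAE : S_AE2 k d := ae2 hk hT hL gl1 hH rep
  exact all2 (cube2 hk hd hAE smooth (vol (by omega) (by omega)))

theorem main2' {k d : ℕ} (hk : 2 ≤ k) (hd : k + 1 ≤ d) :
    ∀ᵐ θ : Fin d → ℝ, ∀ σ : ℝ, 0 < σ → ∀ ε : ℝ, 0 < ε → ∃ r₀ : ℝ, ∀ r w : ℝ,
      r₀ ≤ r → r ^ ((k : ℝ) - d / 2 + σ) ≤ w → w ≤ r ^ ((k : ℝ) - σ) →
      {m : Fin d → ℤ | |∑ i, |(m i : ℝ) - θ i| ^ k - r ^ k| ≤ w}.Finite ∧
      |({m : Fin d → ℤ | |∑ i, |(m i : ℝ) - θ i| ^ k - r ^ k| ≤ w}.ncard : ℝ) -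
        2 * (2 * Real.Gamma (1 / (k : ℝ) + 1)) ^ d / Real.Gamma ((d : ℝ) / k) *
          (w * r ^ ((d : ℝ) - k))| ≤ ε * (w * r ^ ((d : ℝ) - k)) := by
  have h := main2 hk hd
  have h1 : ∀ᵐ θ : Fin d → ℝ, ∀ n : ℕ, ∀ ε : ℝ, 0 < ε → ∃ r₀ : ℝ, ∀ r w : ℝ,
      r₀ ≤ r → r ^ (-((d : ℝ) / 2 - k - 1 / ((n : ℝ) + 1))) ≤ w →
      w ≤ r ^ ((k : ℝ) - 1 / ((n : ℝ) + 1)) →
      {m : Fin d → ℤ | |∑ i, |(m i : ℝ) - θ i| ^ k - r ^ k| ≤ w}.Finite ∧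
      |({m : Fin d → ℤ | |∑ i, |(m i : ℝ) - θ i| ^ k - r ^ k| ≤ w}.ncard : ℝ) -
        2 * (2 * Real.Gamma (1 / (k : ℝ) + 1)) ^ d / Real.Gamma ((d : ℝ) / k) *
          (w * r ^ ((d : ℝ) - k))| ≤ ε * (w * r ^ ((d : ℝ) - k)) := by
    rw [ae_all_iff]
    intro n
    have : (0 : ℝ) < 1 / ((n : ℝ) + 1) := by positivity
    exact h _ _ (by linarith) this
  filter_upwards [h1] with θ hθ σ hσ ε hε
  obtain ⟨n, hn⟩ := exists_nat_one_div_lt (K := ℝ) (ε := σ) hσ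
  obtain ⟨r₀, hr₀⟩ := hθ n ε hε
  refine ⟨max r₀ 1, fun r w hr hw hw1 => hr₀ r w ((le_max_left _ _).trans hr) ?_ ?_⟩
  · refine le_trans (Real.rpow_le_rpow_of_exponent_le ((le_max_right _ _).trans hr) ?_) hw
    linarith
  · refine hw1.trans (Real.rpow_le_rpow_of_exponent_le ((le_max_right _ _).trans hr) ?_)
    linarith

end Pool.Agent.W5h6.MC
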